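import Pool.Agent.W715.BC.Defs

set_option autoImplicit false

open Classical Finset

namespace Pool.Agent.W590.BCI

open Pool.Agent.W715.BC

/-- functions in a product of small sets that take the same value at two given places are few -/
theorem card_eq_pair {ι α : Type} [Fintype ι] [DecidableEq ι] (S : ι → Finset α) (M : ℕ) (hS : ∀ i, (S i).card ≤ M)
    (i j : ι) (hij : i ≠ j) :
    ((Fintype.piFinset S).filter (fun f => f i = f j)).card ≤ M ^ (Fintype.card ι - 1) := by
  have h1 : ((Fintype.piFinset S).filter (fun f => f i = f j)).card ≤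
      (Fintype.piFinset (fun l : {l : ι // l ≠ i} => S l)).card := by
    apply Finset.card_le_card_of_injOn (fun f => fun l : {l : ι // l ≠ i} => f l)
    · intro f hf
      simp only [Finset.coe_filter, Set.mem_ofPred_eq, Fintype.mem_piFinset] at hf
      simp only [Finset.mem_coe, Fintype.mem_piFinset]
      intro l
      exact hf.1 l
    · intro f hf g hg hfg
      simp only [Finset.coe_filter, Set.mem_ofPred_eq, Fintype.mem_piFinset] at hf hg
      funext l
      by_cases hl : l = i
      · subst hl
        rw [hf.2, hg.2]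
        exact congrFun hfg ⟨j, hij.symm⟩
      · exact congrFun hfg ⟨l, hl⟩
  refine h1.trans ?_
  rw [Fintype.card_piFinset]
  calc ∏ l : {l : ι // l ≠ i}, (S l).card ≤ ∏ _l : {l : ι // l ≠ i}, M :=
        Finset.prod_le_prod' (fun l _ => hS l)
    _ = M ^ (Fintype.card ι - 1) := by
        rw [Finset.prod_const, Finset.card_univ, Fintype.card_subtype_compl, Fintype.card_subtype_eq]

theorem card_noninj {ι α : Type} [Fintype ι] [DecidableEq ι] (S : ι → Finset α) (M : ℕ)
    (hS : ∀ i, (S i).card ≤ M) :
    ((Fintype.piFinset S).filter (fun f => ¬ Function.Injective f)).card ≤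
      (Fintype.card ι) ^ 2 * M ^ (Fintype.card ι - 1) := by
  have h1 : (Fintype.piFinset S).filter (fun f => ¬ Function.Injective f) ⊆
      (Finset.univ : Finset (ι × ι)).biUnion (fun x => if x.1 = x.2 then ∅ else
        (Fintype.piFinset S).filter (fun f => f x.1 = f x.2)) := by
    intro f hf
    rw [Finset.mem_filter] at hf
    obtain ⟨hf1, hf2⟩ := hf
    rw [Function.Injective] at hf2
    push Not at hf2
    obtain ⟨i, j, hij, hne⟩ := hf2
    rw [Finset.mem_biUnion]
    refine ⟨(i, j), Finset.mem_univ _, ?_⟩
    simp only [hne, if_false, Finset.mem_filter]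
    exact ⟨hf1, hij⟩
  refine (Finset.card_le_card h1).trans ?_
  refine Finset.card_biUnion_le.trans ?_
  have h2 : ∀ x ∈ (Finset.univ : Finset (ι × ι)), (if x.1 = x.2 then (∅ : Finset (ι → α)) else
        (Fintype.piFinset S).filter (fun f => f x.1 = f x.2)).card ≤ M ^ (Fintype.card ι - 1) := by
    intro x _
    by_cases hx : x.1 = x.2
    · simp [hx]
    · rw [if_neg hx]
      exact card_eq_pair S M hS x.1 x.2 hx
  refine (Finset.sum_le_card_nsmul _ _ _ h2).trans ?_
  rw [Finset.card_univ, Fintype.card_prod, smul_eq_mul, sq]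

/-- distinct representatives -/
theorem sdr {α : Type} {t : ℕ} (S : Fin t → Finset α) (hS : ∀ j, t ≤ (S j).card) :
    ∃ c : Fin t → α, Function.Injective c ∧ ∀ j, c j ∈ S j := by
  rw [← Finset.all_card_le_biUnion_card_iff_exists_injective]
  intro s
  rcases s.eq_empty_or_nonempty with h | ⟨x, hx⟩
  · simp [h]
  · calc s.card ≤ t := by simpa using Finset.card_le_univ s
      _ ≤ (S x).card := hS x
      _ ≤ (s.biUnion S).card := Finset.card_le_card (Finset.subset_biUnion_of_mem S hx)

variable {A B : Type} [Fintype A] [Fintype B]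

/-- the candidates for the children, given the roots -/
noncomputable def FF (r : A → B → Prop) {s s' : ℕ} (H2 : Finset (Fin (s + s') → B))
    (p : Fin s → Fin (s + s') → A) (w : Fin s' → B) : Finset (Fin s → B) :=
  Finset.univ.filter (fun x => (∀ i a, r (p i a) (x i)) ∧ Fin.append x w ∈ H2)

theorem cover (r : A → B → Prop) {s s' t : ℕ} (hs : 1 ≤ s) (ht : 0 < t)
    (H2 : Finset (Fin (s + s') → B))
    (hH2 : ∀ Q ∈ H2, Function.Injective Q ∧
      t + s * (s + s') ≤ codeg (fun b a => r a b) Q)
    (p : Fin s → Fin (s + s') → A)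
    (hp : Function.Injective (fun x : Fin s × Fin (s + s') => p x.1 x.2))
    (w : Fin s' → B) (hB : ¬ Blow r s (s + s') s' t) :
    ∃ T0 : Finset B, T0.card ≤ s * t ∧ ∀ x ∈ FF r H2 p w, ∃ i, x i ∈ T0 := by
  let P : ℕ → Prop := fun k => ∃ g : Fin k → Fin s → B, (∀ j, g j ∈ FF r H2 p w) ∧
    Function.Injective (fun x : Fin s × Fin k => g x.2 x.1)
  have hP0 : P 0 := ⟨fun j => Fin.elim0 j, fun j => Fin.elim0 j, fun x => Fin.elim0 x.2⟩
  have hPt : ¬ P t := by
    rintro ⟨g, hg, hinj⟩
    apply hB
    have hg' : ∀ j, (∀ i a, r (p i a) (g j i)) ∧ Fin.append (g j) w ∈ H2 := by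
      intro j
      have := hg j
      rw [FF, Finset.mem_filter] at this
      exact this.2
    let R : Finset A := Finset.univ.image (fun x : Fin s × Fin (s + s') => p x.1 x.2)
    have hR : R.card ≤ s * (s + s') := by
      refine Finset.card_image_le.trans ?_
      simp
    obtain ⟨c, hc, hc'⟩ := sdr (t := t) (fun j =>
      (Finset.univ.filter (fun a : A => ∀ l, r a (Fin.append (g j) w l))) \ R) (by
        intro j
        have h1 := (hH2 _ (hg' j).2).2
        rw [codeg] at h1
        have h2 := Finset.le_card_sdiff R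
          (Finset.univ.filter (fun a : A => ∀ l, r a (Fin.append (g j) w l)))
        omega)
    have hc2 : ∀ j l, r (c j) (Fin.append (g j) w l) := by
      intro j l
      have := hc' j
      rw [Finset.mem_sdiff, Finset.mem_filter] at this
      exact this.1.2 l
    have hc3 : ∀ j, c j ∉ R := by
      intro j
      have := hc' j
      rw [Finset.mem_sdiff] at this
      exact this.2
    have hinj0 : ∀ j, Function.Injective (Fin.append (g j) w) := fun j => (hH2 _ (hg' j).2).1
    refine ⟨c, fun i j => g j i, p, w, hc, hinj, hp, ?_, ?_, ?_, ?_, ?_, ?_⟩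
    · intro l l' hl
      have := @hinj0 ⟨0, ht⟩ (Fin.natAdd s l) (Fin.natAdd s l') (by
        rw [Fin.append_right, Fin.append_right, hl])
      exact Fin.natAdd_injective _ _ this
    · intro j i a h
      apply hc3 j
      rw [h]
      exact Finset.mem_image.mpr ⟨(i, a), Finset.mem_univ _, rfl⟩
    · intro i j l h
      have := @hinj0 j (Fin.castAdd s' i) (Fin.natAdd s l) (by
        rw [Fin.append_left, Fin.append_right]; exact h)
      have h2 := congrArg Fin.val this
      simp at h2
      have := i.2
      omega
    · intro i j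
      have := hc2 j (Fin.castAdd s' i)
      rwa [Fin.append_left] at this
    · intro j l
      have := hc2 j (Fin.natAdd s l)
      rwa [Fin.append_right] at this
    · intro i j a
      exact (hg' j).1 i a
  -- maximal k
  have hk : ∃ k, k < t ∧ P k ∧ ¬ P (k + 1) := by
    by_contra hcon
    push Not at hcon
    have : ∀ k, k ≤ t → P k := by
      intro k
      induction k with
      | zero => intro _; exact hP0
      | succ k ih => intro hk; exact hcon k (by omega) (ih (by omega))
    exact hPt (this t le_rfl)
  obtain ⟨k, hkt, ⟨g, hg, hinj⟩, hk1⟩ := hk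
  refine ⟨Finset.univ.image (fun x : Fin s × Fin k => g x.2 x.1), ?_, ?_⟩
  · refine Finset.card_image_le.trans ?_
    simp only [Finset.card_univ, Fintype.card_prod, Fintype.card_fin]
    exact Nat.mul_le_mul_left _ hkt.le
  · intro x hx
    by_contra hcon
    push Not at hcon
    apply hk1
    have hxinj : Function.Injective x := by
      rw [FF, Finset.mem_filter] at hx
      have h := (hH2 _ hx.2.2).1
      intro i i' hii
      have := @h (Fin.castAdd s' i) (Fin.castAdd s' i') (by
        rw [Fin.append_left, Fin.append_left, hii])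
      exact Fin.castAdd_injective _ _ this
    refine ⟨Fin.cons x g, ?_, ?_⟩
    · intro j
      refine Fin.cases ?_ (fun j => ?_) j
      · simpa using hx
      · simpa using hg j
    · rintro ⟨i, j⟩ ⟨i', j'⟩ h
      simp only at h
      induction j using Fin.cases with
      | zero =>
        induction j' using Fin.cases with
        | zero =>
          rw [Fin.cons_zero] at h
          rw [hxinj h]
        | succ j' =>
          rw [Fin.cons_zero, Fin.cons_succ] at h
          exfalso
          apply hcon i
          rw [h]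
          exact Finset.mem_image.mpr ⟨(i', j'), Finset.mem_univ _, rfl⟩
      | succ j =>
        induction j' using Fin.cases with
        | zero =>
          rw [Fin.cons_zero, Fin.cons_succ] at h
          exfalso
          apply hcon i'
          rw [← h]
          exact Finset.mem_image.mpr ⟨(i, j), Finset.mem_univ _, rfl⟩
        | succ j' =>
          rw [Fin.cons_succ, Fin.cons_succ] at h
          have := @hinj (i, j) (i', j') h
          rw [Prod.mk.injEq] at this
          rw [this.1, this.2]

/-- common neighbourhood -/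
noncomputable def VV (r : A → B → Prop) {q : ℕ} (p : Fin q → A) : Finset B :=
  Finset.univ.filter (fun b => ∀ a, r (p a) b)

theorem card_FF (r : A → B → Prop) {s s' t : ℕ} (hs : 1 ≤ s) (ht : 0 < t)
    (H2 : Finset (Fin (s + s') → B))
    (hH2 : ∀ Q ∈ H2, Function.Injective Q ∧
      t + s * (s + s') ≤ codeg (fun b a => r a b) Q)
    (p : Fin s → Fin (s + s') → A)
    (hp : Function.Injective (fun x : Fin s × Fin (s + s') => p x.1 x.2))
    (w : Fin s' → B) (hB : ¬ Blow r s (s + s') s' t) :
    (FF r H2 p w).card ≤ ∑ i : Fin s, ∏ j : Fin s, (if j = i then s * t else (VV r (p j)).card) := by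
  obtain ⟨T0, hT0, hcov⟩ := cover r hs ht H2 hH2 p hp w hB
  have h1 : FF r H2 p w ⊆ Finset.univ.biUnion (fun i : Fin s =>
      Fintype.piFinset (fun j => if j = i then T0 else VV r (p j))) := by
    intro x hx
    obtain ⟨i, hi⟩ := hcov x hx
    rw [Finset.mem_biUnion]
    refine ⟨i, Finset.mem_univ _, ?_⟩
    rw [Fintype.mem_piFinset]
    intro j
    by_cases hj : j = i
    · rw [if_pos hj, hj]; exact hi
    · rw [if_neg hj, VV, Finset.mem_filter]
      rw [FF, Finset.mem_filter] at hx
      exact ⟨Finset.mem_univ _, fun a => hx.2.1 j a⟩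
  refine (Finset.card_le_card h1).trans (Finset.card_biUnion_le.trans ?_)
  apply Finset.sum_le_sum
  intro i _
  rw [Fintype.card_piFinset]
  apply Finset.prod_le_prod'
  intro j _
  by_cases hj : j = i
  · rw [if_pos hj, if_pos hj]; exact hT0
  · rw [if_neg hj, if_neg hj]

/-- the configurations that are counted -/
noncomputable def MM (r : A → B → Prop) {s s' : ℕ} (H1 : Finset (Fin (s + s') → A))
    (H2 : Finset (Fin (s + s') → B)) :
    Finset ((Fin s → Fin (s + s') → A) × (Fin (s + s') → B)) :=
  ((Fintype.piFinset (fun _ : Fin s => H1)) ×ˢ H2).filter (fun z =>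
    (∀ i a, r (z.1 i a) (z.2 (Fin.castAdd s' i))) ∧
    Function.Injective (fun x : Fin s × Fin (s + s') => z.1 x.1 x.2))

theorem upper (r : A → B → Prop) {s s' t : ℕ} (hs : 1 ≤ s) (ht : 0 < t)
    (H1 : Finset (Fin (s + s') → A)) (H2 : Finset (Fin (s + s') → B))
    (hH2 : ∀ Q ∈ H2, Function.Injective Q ∧
      t + s * (s + s') ≤ codeg (fun b a => r a b) Q)
    (hB : ¬ Blow r s (s + s') s' t) :
    (MM r H1 H2).card ≤ (Fintype.card B) ^ s' * (s * ((s * t * H1.card) *
      (∑ p ∈ H1, (VV r p).card) ^ (s - 1))) := by
  have h1 : (MM r H1 H2).card = ∑ p ∈ Fintype.piFinset (fun _ : Fin s => H1),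
      ((MM r H1 H2).filter (fun z => z.1 = p)).card := by
    apply Finset.card_eq_sum_card_fiberwise
    intro z hz
    simp only [MM, Finset.coe_filter, Finset.mem_product, Set.mem_ofPred_eq] at hz
    exact hz.1.1
  have h2 : ∀ p ∈ Fintype.piFinset (fun _ : Fin s => H1),
      ((MM r H1 H2).filter (fun z => z.1 = p)).card ≤ (Fintype.card B) ^ s' *
        ∑ i : Fin s, ∏ j : Fin s, (if j = i then s * t else (VV r (p j)).card) := by
    intro p _
    by_cases hp : Function.Injective (fun x : Fin s × Fin (s + s') => p x.1 x.2)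
    · have h3 : ((MM r H1 H2).filter (fun z => z.1 = p)).card =
          ∑ w : Fin s' → B, (((MM r H1 H2).filter (fun z => z.1 = p)).filter
            (fun z => (fun l => z.2 (Fin.natAdd s l)) = w)).card := by
        apply Finset.card_eq_sum_card_fiberwise
        intro z _
        exact Finset.mem_univ _
      rw [h3]
      have h4 : ∀ w ∈ (Finset.univ : Finset (Fin s' → B)),
          (((MM r H1 H2).filter (fun z => z.1 = p)).filter
            (fun z => (fun l => z.2 (Fin.natAdd s l)) = w)).card ≤
          ∑ i : Fin s, ∏ j : Fin s, (if j = i then s * t else (VV r (p j)).card) := by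
        intro w _
        refine le_trans ?_ (card_FF r hs ht H2 hH2 p hp w hB)
        apply Finset.card_le_card_of_injOn (fun z => fun i => z.2 (Fin.castAdd s' i))
        · intro z hz
          simp only [MM, Finset.coe_filter, Finset.mem_filter, Finset.mem_product,
            Set.mem_ofPred_eq] at hz
          simp only [FF, Finset.coe_filter, Finset.mem_univ, true_and, Set.mem_ofPred_eq]
          obtain ⟨⟨⟨⟨hz1, hz2⟩, hz3, hz4⟩, hz5⟩, hz6⟩ := hz
          refine ⟨fun i a => ?_, ?_⟩
          · rw [← hz5]; exact hz3 i a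
          · rw [← hz6, Fin.append_castAdd_natAdd]; exact hz2
        · intro z hz y hy hzy
          simp only [Finset.coe_filter, Finset.mem_filter, Set.mem_ofPred_eq] at hz hy
          obtain ⟨⟨_, hz5⟩, hz6⟩ := hz
          obtain ⟨⟨_, hy5⟩, hy6⟩ := hy
          apply Prod.ext
          · rw [hz5, hy5]
          · rw [← Fin.append_castAdd_natAdd (f := z.2), ← Fin.append_castAdd_natAdd (f := y.2)]
            rw [hz6, hy6]
            congr 1
      refine (Finset.sum_le_card_nsmul _ _ _ h4).trans ?_
      rw [Finset.card_univ, Fintype.card_fun, Fintype.card_fin, smul_eq_mul]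
    · have : (MM r H1 H2).filter (fun z => z.1 = p) = ∅ := by
        rw [Finset.filter_eq_empty_iff]
        intro z hz hzp
        rw [MM, Finset.mem_filter] at hz
        apply hp
        rw [← hzp]
        exact hz.2.2
      rw [this, Finset.card_empty]
      exact Nat.zero_le _
  rw [h1]
  refine (Finset.sum_le_sum h2).trans ?_
  rw [← Finset.mul_sum, Finset.sum_comm]
  apply Nat.mul_le_mul_left
  have h5 : ∀ i ∈ (Finset.univ : Finset (Fin s)),
      ∑ p ∈ Fintype.piFinset (fun _ : Fin s => H1), ∏ j : Fin s,
        (if j = i then s * t else (VV r (p j)).card) ≤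
      (s * t * H1.card) * (∑ p ∈ H1, (VV r p).card) ^ (s - 1) := by
    intro i _
    have h6 := Finset.prod_univ_sum (fun _ : Fin s => H1)
      (fun (j : Fin s) (p : Fin (s + s') → A) => if j = i then s * t else (VV r p).card)
    rw [← h6]
    rw [← Finset.mul_prod_erase _ _ (Finset.mem_univ i)]
    apply Nat.mul_le_mul
    · simp only [if_true, Finset.sum_const, smul_eq_mul]
      rw [mul_comm]
    · have h7 : ∀ j ∈ Finset.univ.erase i,
          ∑ p ∈ H1, (if j = i then s * t else (VV r p).card) ≤ ∑ p ∈ H1, (VV r p).card := by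
        intro j hj
        rw [Finset.mem_erase] at hj
        simp only [if_neg hj.1, le_refl]
      refine (Finset.prod_le_pow_card _ _ _ h7).trans ?_
      rw [Finset.card_erase_of_mem (Finset.mem_univ i), Finset.card_univ, Fintype.card_fin]
  refine (Finset.sum_le_card_nsmul _ _ _ h5).trans ?_
  rw [Finset.card_univ, Fintype.card_fin, smul_eq_mul]

theorem sum_VV (r : A → B → Prop) {q : ℕ} (H1 : Finset (Fin q → A)) (M : ℕ)
    (hM : ∀ b, deg2 r b ≤ M) :
    ∑ p ∈ H1, (VV r p).card ≤ Fintype.card B * M ^ q := by
  have h1 : ∑ p ∈ H1, (VV r p).card = ∑ b : B, (H1.filter (fun p => ∀ a, r (p a) b)).card := by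
    simp only [VV, Finset.card_filter]
    rw [Finset.sum_comm]
  rw [h1]
  have h2 : ∀ b ∈ (Finset.univ : Finset B),
      (H1.filter (fun p => ∀ a, r (p a) b)).card ≤ M ^ q := by
    intro b _
    have h3 : H1.filter (fun p => ∀ a, r (p a) b) ⊆
        Fintype.piFinset (fun _ : Fin q => Finset.univ.filter (fun a => r a b)) := by
      intro p hp
      rw [Finset.mem_filter] at hp
      rw [Fintype.mem_piFinset]
      intro a
      simpa using hp.2 a
    refine (Finset.card_le_card h3).trans ?_
    rw [Fintype.card_piFinset]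
    simp only [Finset.prod_const, Finset.card_univ, Fintype.card_fin]
    exact Nat.pow_le_pow_left (hM b) q
  refine (Finset.sum_le_card_nsmul _ _ _ h2).trans ?_
  rw [Finset.card_univ, smul_eq_mul]

/-- lower bound for the number of configurations -/
theorem lower (r : A → B → Prop) {s s' : ℕ} (H1 : Finset (Fin (s + s') → A))
    (H2 : Finset (Fin (s + s') → B)) (Y : Finset B) (M m : ℕ)
    (hH2 : ∀ Q ∈ H2, ∀ i, Q i ∈ Y)
    (hm : ∀ b ∈ Y, m ≤ (H1.filter (fun p => ∀ i, r (p i) b)).card)
    (hM : ∀ b, deg2 r b ≤ M) :
    H2.card * m ^ s ≤ (MM r H1 H2).card +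
      H2.card * ((s * (s + s')) ^ 2 * M ^ (s * (s + s') - 1)) := by
  have h1 : (MM r H1 H2).card = ∑ Q ∈ H2,
      ((MM r H1 H2).filter (fun z => z.2 = Q)).card := by
    apply Finset.card_eq_sum_card_fiberwise
    intro z hz
    simp only [MM, Finset.coe_filter, Finset.mem_product, Set.mem_ofPred_eq] at hz
    exact hz.1.2
  rw [h1, ← smul_eq_mul, ← smul_eq_mul (a := H2.card), ← Finset.sum_const, ← Finset.sum_const,
    ← Finset.sum_add_distrib]
  apply Finset.sum_le_sum
  intro Q hQ
  -- all families
  let P0 := Fintype.piFinset (fun i : Fin s =>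
    H1.filter (fun p => ∀ a, r (p a) (Q (Fin.castAdd s' i))))
  have h2 : m ^ s ≤ P0.card := by
    rw [Fintype.card_piFinset]
    calc m ^ s = ∏ _i : Fin s, m := by simp
      _ ≤ _ := Finset.prod_le_prod' (fun i _ => hm _ (hH2 Q hQ _))
  have h3 : P0.card = (P0.filter (fun p =>
      Function.Injective (fun x : Fin s × Fin (s + s') => p x.1 x.2))).card +
      (P0.filter (fun p =>
      ¬ Function.Injective (fun x : Fin s × Fin (s + s') => p x.1 x.2))).card :=
    (Finset.card_filter_add_card_filter_not _).symm
  have h4 : (P0.filter (fun p =>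
      Function.Injective (fun x : Fin s × Fin (s + s') => p x.1 x.2))).card ≤
      ((MM r H1 H2).filter (fun z => z.2 = Q)).card := by
    apply Finset.card_le_card_of_injOn (fun p => (p, Q))
    · intro p hp
      simp only [P0, Finset.coe_filter, Set.mem_ofPred_eq, Fintype.mem_piFinset,
        Finset.mem_filter] at hp
      simp only [MM, Finset.coe_filter, Set.mem_ofPred_eq, Finset.mem_filter, Finset.mem_product,
        Fintype.mem_piFinset]
      exact ⟨⟨⟨fun i => (hp.1 i).1, hQ⟩, fun i a => (hp.1 i).2 a, hp.2⟩, trivial⟩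
    · intro p _ p' _ h
      exact (Prod.mk.injEq _ _ _ _ ▸ h).1
  have h5 : (P0.filter (fun p =>
      ¬ Function.Injective (fun x : Fin s × Fin (s + s') => p x.1 x.2))).card ≤
      (s * (s + s')) ^ 2 * M ^ (s * (s + s') - 1) := by
    have h6 := card_noninj (fun x : Fin s × Fin (s + s') =>
      Finset.univ.filter (fun a => r a (Q (Fin.castAdd s' x.1)))) M (fun x => hM _)
    rw [Fintype.card_prod, Fintype.card_fin, Fintype.card_fin] at h6
    refine le_trans ?_ h6
    apply Finset.card_le_card_of_injOn (fun p => fun x : Fin s × Fin (s + s') => p x.1 x.2)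
    · intro p hp
      simp only [P0, Finset.coe_filter, Set.mem_ofPred_eq, Fintype.mem_piFinset,
        Finset.mem_filter] at hp
      simp only [Finset.coe_filter, Set.mem_ofPred_eq, Fintype.mem_piFinset, Finset.mem_filter,
        Finset.mem_univ, true_and]
      exact ⟨fun x => (hp.1 x.1).2 x.2, hp.2⟩
    · intro p _ p' _ h
      funext i a
      exact congrFun h (i, a)
  omega

end Pool.Agent.W590.BCI
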