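import Pool.Agent.W590.BC.Mix

set_option autoImplicit false
set_option linter.unusedSectionVars false
set_option linter.unusedVariables false

open Classical Finset

namespace Pool.Agent.W590.BCI

open Pool.Agent.W715.BC

variable {A B : Type} [Fintype A] [Fintype B]

/-- number of tuples in the neighbourhood of b that are bad together with a -/
noncomputable def bet (r : A → B → Prop) (q0 L : ℕ) (a : A) (b : B) : ℕ :=
  ((Finset.univ : Finset (Fin q0 → A)).filter (fun P => (∀ i, r (P i) b) ∧
    ¬ (Function.Injective (Fin.cons a P : Fin (q0 + 1) → A) ∧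
      L ≤ codeg r (Fin.cons a P : Fin (q0 + 1) → A)))).card

theorem sum_bet (r : A → B → Prop) (q0 L : ℕ) (b : B) :
    ∑ a ∈ (Finset.univ : Finset A).filter (fun a => r a b), bet r q0 L a b ≤
      bad r (q0 + 1) L b := by
  have h1 : bad r (q0 + 1) L b = ∑ a : A,
      (((Finset.univ : Finset (Fin (q0 + 1) → A)).filter (fun Q => (∀ i, r (Q i) b) ∧
        ¬ (Function.Injective Q ∧ L ≤ codeg r Q))).filter (fun Q => Q 0 = a)).card := by
    rw [bad]
    exact Finset.card_eq_sum_card_fiberwise (fun _ _ => Finset.mem_univ _)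
  rw [h1]
  refine le_trans ?_ (Finset.sum_le_sum_of_subset (Finset.filter_subset (fun a => r a b) _))
  apply Finset.sum_le_sum
  intro a ha
  rw [Finset.mem_filter] at ha
  rw [bet]
  apply Finset.card_le_card_of_injOn (fun P => (Fin.cons a P : Fin (q0 + 1) → A))
  · intro P hP
    simp only [Finset.coe_filter, Set.mem_ofPred_eq, Finset.mem_univ, true_and] at hP
    simp only [Finset.coe_filter, Set.mem_ofPred_eq, Finset.mem_filter, Finset.mem_univ, true_and]
    refine ⟨⟨?_, hP.2⟩, Fin.cons_zero _ _⟩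
    intro i
    induction i using Fin.cases with
    | zero => rw [Fin.cons_zero]; exact ha.2
    | succ i => rw [Fin.cons_succ]; exact hP.1 i
  · intro P _ P' _ h
    funext i
    have := congrFun h i.succ
    simpa using this

/-- number of bad edges -/
theorem few_bad_edges (r e : A → B → Prop) (q0 L M : ℕ) (δ : ℝ) (hM : ∀ b, deg2 r b ≤ M)
    (he : ∀ a b, e a b → r a b ∧ δ < (bet r q0 L a b : ℝ)) :
    ((EE e Finset.univ Finset.univ : ℕ) : ℝ) * δ ≤
      Fintype.card B * ((q0 + 1) ^ 2 * M ^ q0) + Fintype.card A ^ (q0 + 1) * L := by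
  have h0 : ∑ b : B, (bad r (q0 + 1) L b : ℝ) ≤
      Fintype.card B * ((q0 + 1) ^ 2 * M ^ q0) + Fintype.card A ^ (q0 + 1) * L := by
    have := bad_sum r (q0 + 1) L M hM
    rw [Nat.add_sub_cancel] at this
    exact_mod_cast this
  refine le_trans ?_ h0
  rw [EE_right, Nat.cast_sum, Finset.sum_mul]
  apply Finset.sum_le_sum
  intro b _
  have h1 : (∑ a ∈ (Finset.univ : Finset A).filter (fun a => e a b),
      (bet r q0 L a b : ℝ)) ≤ (bad r (q0 + 1) L b : ℝ) := by
    have h2 := sum_bet r q0 L b
    have h3 : (∑ a ∈ (Finset.univ : Finset A).filter (fun a => r a b), (bet r q0 L a b : ℝ)) ≤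
        (bad r (q0 + 1) L b : ℝ) := by exact_mod_cast h2
    refine le_trans ?_ h3
    apply Finset.sum_le_sum_of_subset_of_nonneg
    · intro a ha
      rw [Finset.mem_filter] at ha ⊢
      exact ⟨ha.1, (he a b ha.2).1⟩
    · intro _ _ _; positivity
  refine le_trans ?_ h1
  have := Finset.card_nsmul_le_sum ((Finset.univ : Finset A).filter
    (fun a => e a b)) (fun a => (bet r q0 L a b : ℝ)) δ (by
      intro a ha
      rw [Finset.mem_filter] at ha
      exact (he a b ha.2).2.le)
  rwa [nsmul_eq_mul] at this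

/-- tuples hitting a small set are few -/
theorem card_hit {α : Type} (N S : Finset α) (q0 M : ℕ) (hN : N.card ≤ M) :
    ((Fintype.piFinset (fun _ : Fin q0 => N)).filter (fun P => ∃ i, P i ∈ S)).card ≤
      q0 * (S.card * M ^ (q0 - 1)) := by
  have h1 : (Fintype.piFinset (fun _ : Fin q0 => N)).filter (fun P => ∃ i, P i ∈ S) ⊆
      Finset.univ.biUnion (fun i : Fin q0 =>
        Fintype.piFinset (fun j : Fin q0 => if j = i then S else N)) := by
    intro P hP
    rw [Finset.mem_filter, Fintype.mem_piFinset] at hP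
    obtain ⟨hP1, i, hi⟩ := hP
    rw [Finset.mem_biUnion]
    refine ⟨i, Finset.mem_univ _, ?_⟩
    rw [Fintype.mem_piFinset]
    intro j
    by_cases hj : j = i
    · rw [if_pos hj, hj]; exact hi
    · rw [if_neg hj]; exact hP1 j
  refine (Finset.card_le_card h1).trans (Finset.card_biUnion_le.trans ?_)
  have h2 : ∀ i ∈ (Finset.univ : Finset (Fin q0)),
      (Fintype.piFinset (fun j : Fin q0 => if j = i then S else N)).card ≤
        S.card * M ^ (q0 - 1) := by
    intro i _
    rw [Fintype.card_piFinset, ← Finset.mul_prod_erase _ _ (Finset.mem_univ i)]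
    apply Nat.mul_le_mul
    · simp
    · have h3 : ∀ j ∈ (Finset.univ : Finset (Fin q0)).erase i,
          (if j = i then S else N).card ≤ M := by
        intro j hj
        rw [Finset.mem_erase] at hj
        rw [if_neg hj.1]; exact hN
      refine (Finset.prod_le_pow_card _ _ _ h3).trans ?_
      rw [Finset.card_erase_of_mem (Finset.mem_univ i), Finset.card_univ, Fintype.card_fin]
  refine (Finset.sum_le_card_nsmul _ _ _ h2).trans ?_
  rw [Finset.card_univ, Fintype.card_fin, smul_eq_mul]

/-- one further tuple of roots -/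
theorem ext1 (r : A → B → Prop) (q0 t S0 K D L : ℕ) (hq0 : 1 ≤ q0) (ht : 0 < t)
    (c : Fin t → A) (w : B) (hlow : D ≤ deg2 r w) (hup : deg2 r w ≤ K * D)
    (hbet : ∀ j, (bet r q0 L (c j) w : ℝ) ≤ 1 / (2 * t) * (D : ℝ) ^ q0)
    (S : Finset A) (hS : S.card ≤ S0)
    (hD : 2 * q0 * (S0 * K ^ (q0 - 1)) < D) :
    ∃ P : Fin q0 → A, (∀ a, P a ∉ S) ∧ ∀ j,
      Function.Injective (Fin.cons (c j) P : Fin (q0 + 1) → A) ∧
      L ≤ codeg r (Fin.cons (c j) P : Fin (q0 + 1) → A) := by
  by_contra hcon
  push Not at hcon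
  let N : Finset A := Finset.univ.filter (fun a => r a w)
  have hN : N.card = deg2 r w := rfl
  have h1 : Fintype.piFinset (fun _ : Fin q0 => N) ⊆
      ((Fintype.piFinset (fun _ : Fin q0 => N)).filter (fun P => ∃ i, P i ∈ S)) ∪
      Finset.univ.biUnion (fun j : Fin t => (Finset.univ : Finset (Fin q0 → A)).filter
        (fun P => (∀ i, r (P i) w) ∧
    ¬ (Function.Injective (Fin.cons (c j) P : Fin (q0 + 1) → A) ∧
      L ≤ codeg r (Fin.cons (c j) P : Fin (q0 + 1) → A)))) := by
    intro P hP
    rw [Finset.mem_union]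
    by_cases h : ∃ i, P i ∈ S
    · left; rw [Finset.mem_filter]; exact ⟨hP, h⟩
    · right
      push Not at h
      obtain ⟨j, hj⟩ := hcon P h
      rw [Finset.mem_biUnion]
      refine ⟨j, Finset.mem_univ _, ?_⟩
      rw [Finset.mem_filter]
      refine ⟨Finset.mem_univ _, ?_, ?_⟩
      · intro i
        rw [Fintype.mem_piFinset] at hP
        exact (Finset.mem_filter.mp (hP i)).2
      · rintro ⟨h5, h6⟩
        exact absurd h6 (not_le.mpr (hj h5))
  have h2 := (Finset.card_le_card h1).trans (Finset.card_union_le _ _)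
  rw [Fintype.card_piFinset, Finset.prod_const, Finset.card_univ, Fintype.card_fin] at h2
  have h3 : D ^ q0 ≤ N.card ^ q0 := Nat.pow_le_pow_left hlow q0
  have h4 := card_hit N S q0 (K * D) hup
  have h5 : ((Finset.univ.biUnion (fun j : Fin t => (Finset.univ : Finset (Fin q0 → A)).filter
        (fun P => (∀ i, r (P i) w) ∧
    ¬ (Function.Injective (Fin.cons (c j) P : Fin (q0 + 1) → A) ∧
      L ≤ codeg r (Fin.cons (c j) P : Fin (q0 + 1) → A))))).card : ℝ) ≤ 1 / 2 * (D : ℝ) ^ q0 := by
    have h6 : (Finset.univ.biUnion (fun j : Fin t => (Finset.univ : Finset (Fin q0 → A)).filter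
        (fun P => (∀ i, r (P i) w) ∧
    ¬ (Function.Injective (Fin.cons (c j) P : Fin (q0 + 1) → A) ∧
      L ≤ codeg r (Fin.cons (c j) P : Fin (q0 + 1) → A))))).card ≤
        ∑ j : Fin t, bet r q0 L (c j) w := Finset.card_biUnion_le
    have h7 : ((∑ j : Fin t, bet r q0 L (c j) w : ℕ) : ℝ) ≤ ∑ _j : Fin t,
        1 / (2 * t) * (D : ℝ) ^ q0 := by
      rw [Nat.cast_sum]
      exact Finset.sum_le_sum (fun j _ => hbet j)
    have h8 : ∑ _j : Fin t, 1 / (2 * (t : ℝ)) * (D : ℝ) ^ q0 = 1 / 2 * (D : ℝ) ^ q0 := by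
      rw [Finset.sum_const, Finset.card_univ, Fintype.card_fin, nsmul_eq_mul]
      have : (t : ℝ) ≠ 0 := by positivity
      field_simp
    rw [← h8]
    refine le_trans ?_ h7
    exact_mod_cast h6
  have h9 : ((D : ℝ) ^ q0) ≤ (q0 * (S.card * (K * D) ^ (q0 - 1)) : ℕ) + 1 / 2 * (D : ℝ) ^ q0 := by
    calc ((D : ℝ) ^ q0) ≤ ((N.card ^ q0 : ℕ) : ℝ) := by exact_mod_cast h3
      _ ≤ _ := by
        have h10 : ((N.card ^ q0 : ℕ) : ℝ) ≤
          ((((Fintype.piFinset (fun _ : Fin q0 => N)).filter (fun P => ∃ i, P i ∈ S)).card +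
          (Finset.univ.biUnion (fun j : Fin t => (Finset.univ : Finset (Fin q0 → A)).filter
        (fun P => (∀ i, r (P i) w) ∧
    ¬ (Function.Injective (Fin.cons (c j) P : Fin (q0 + 1) → A) ∧
      L ≤ codeg r (Fin.cons (c j) P : Fin (q0 + 1) → A))))).card : ℕ) : ℝ) := by
            exact_mod_cast h2
        refine h10.trans ?_
        rw [Nat.cast_add]
        apply add_le_add
        · exact_mod_cast h4
        · exact h5
  have hDpos : 0 < D := by omega
  have h11 : (q0 * (S.card * (K * D) ^ (q0 - 1)) : ℕ) * 2 < D ^ q0 := by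
    have e1 : D ^ q0 = D * D ^ (q0 - 1) := by
      rw [← pow_succ']; congr 1; omega
    rw [mul_pow, e1]
    calc (q0 * (S.card * (K ^ (q0 - 1) * D ^ (q0 - 1)))) * 2 =
        (2 * q0 * (S.card * K ^ (q0 - 1))) * D ^ (q0 - 1) := by ring
      _ ≤ (2 * q0 * (S0 * K ^ (q0 - 1))) * D ^ (q0 - 1) := by gcongr
      _ < D * D ^ (q0 - 1) := Nat.mul_lt_mul_of_pos_right hD (by positivity)
  have h12 : (((q0 * (S.card * (K * D) ^ (q0 - 1)) : ℕ) : ℝ)) * 2 < (D : ℝ) ^ q0 := by
    exact_mod_cast h11
  linarith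

/-- k further tuples of roots -/
theorem extk (r : A → B → Prop) (q0 t S0 K D L : ℕ) (hq0 : 1 ≤ q0) (ht : 0 < t)
    (c : Fin t → A) (w : B) (hlow : D ≤ deg2 r w) (hup : deg2 r w ≤ K * D)
    (hbet : ∀ j, (bet r q0 L (c j) w : ℝ) ≤ 1 / (2 * t) * (D : ℝ) ^ q0)
    (hD : 2 * q0 * (S0 * K ^ (q0 - 1)) < D) :
    ∀ (k : ℕ) (S : Finset A), S.card + k * q0 ≤ S0 →
    ∃ P : Fin k → Fin q0 → A, Function.Injective (fun z : Fin k × Fin q0 => P z.1 z.2) ∧
      (∀ l a, P l a ∉ S) ∧ ∀ l j,
      Function.Injective (Fin.cons (c j) (P l) : Fin (q0 + 1) → A) ∧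
      L ≤ codeg r (Fin.cons (c j) (P l) : Fin (q0 + 1) → A) := by
  intro k
  induction k with
  | zero =>
    intro S hS
    exact ⟨fun i => Fin.elim0 i, fun z => Fin.elim0 z.1, fun l => Fin.elim0 l,
      fun l => Fin.elim0 l⟩
  | succ k ih =>
    intro S hS
    have e1 : (k + 1) * q0 = k * q0 + q0 := by ring
    obtain ⟨P0, h1, h2⟩ := ext1 r q0 t S0 K D L hq0 ht c w hlow hup hbet S (by omega) hD
    have h3 : (S ∪ Finset.univ.image P0).card ≤ S.card + q0 := by
      refine (Finset.card_union_le _ _).trans ?_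
      apply Nat.add_le_add_left
      refine Finset.card_image_le.trans ?_
      simp
    obtain ⟨P, h4, h5, h6⟩ := ih (S ∪ Finset.univ.image P0) (by omega)
    have hP0 : Function.Injective P0 := by
      intro a a' haa
      have := @(h2 ⟨0, ht⟩).1 a.succ a'.succ (by rw [Fin.cons_succ, Fin.cons_succ, haa])
      exact Fin.succ_injective _ this
    refine ⟨Fin.cons P0 P, ?_, ?_, ?_⟩
    · rintro ⟨l, a⟩ ⟨l', a'⟩ h
      simp only at h
      induction l using Fin.cases with
      | zero =>
        induction l' using Fin.cases with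
        | zero =>
          rw [Fin.cons_zero] at h
          rw [hP0 h]
        | succ l' =>
          rw [Fin.cons_zero, Fin.cons_succ] at h
          exfalso
          apply h5 l' a'
          rw [← h, Finset.mem_union]
          exact Or.inr (Finset.mem_image_of_mem _ (Finset.mem_univ _))
      | succ l =>
        induction l' using Fin.cases with
        | zero =>
          rw [Fin.cons_zero, Fin.cons_succ] at h
          exfalso
          apply h5 l a
          rw [h, Finset.mem_union]
          exact Or.inr (Finset.mem_image_of_mem _ (Finset.mem_univ _))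
        | succ l' =>
          rw [Fin.cons_succ, Fin.cons_succ] at h
          have := @h4 (l, a) (l', a') h
          rw [Prod.mk.injEq] at this
          rw [this.1, this.2]
    · intro l a
      induction l using Fin.cases with
      | zero => rw [Fin.cons_zero]; exact h1 a
      | succ l =>
        rw [Fin.cons_succ]
        intro h
        exact h5 l a (Finset.mem_union_left _ h)
    · intro l j
      induction l using Fin.cases with
      | zero => rw [Fin.cons_zero]; exact h2 j
      | succ l => rw [Fin.cons_succ]; exact h6 l j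

/-- distinct representatives, general index type -/
theorem sdr2 {α ι : Type} [Fintype ι] (S : ι → Finset α) (hS : ∀ j, Fintype.card ι ≤ (S j).card) :
    ∃ c : ι → α, Function.Injective c ∧ ∀ j, c j ∈ S j := by
  rw [← Finset.all_card_le_biUnion_card_iff_exists_injective]
  intro s
  rcases s.eq_empty_or_nonempty with h | ⟨x, hx⟩
  · simp [h]
  · calc s.card ≤ Fintype.card ι := Finset.card_le_univ s
      _ ≤ (S x).card := hS x
      _ ≤ (s.biUnion S).card := Finset.card_le_card (Finset.subset_biUnion_of_mem S hx)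

/-- blowup of the tree whose centre has s children with q0 + 1 root neighbours, k children with
q0 root neighbours, and s' root neighbours -/
def Blow2 (r : A → B → Prop) (s k q0 s' t : ℕ) : Prop :=
  ∃ (c : Fin t → A) (x : Fin s → Fin t → B) (y : Fin k → Fin t → B)
    (P : Fin s → Fin (q0 + 1) → A) (P' : Fin k → Fin q0 → A) (w : Fin s' → B),
    Function.Injective (Sum.elim c (Sum.elim (fun z : Fin s × Fin (q0 + 1) => P z.1 z.2)
      (fun z : Fin k × Fin q0 => P' z.1 z.2))) ∧
    Function.Injective (Sum.elim (fun z : Fin s × Fin t => x z.1 z.2)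
      (Sum.elim (fun z : Fin k × Fin t => y z.1 z.2) w)) ∧
    (∀ i j, r (c j) (x i j)) ∧ (∀ l j, r (c j) (y l j)) ∧ (∀ j l, r (c j) (w l)) ∧
    (∀ i j a, r (P i a) (x i j)) ∧ (∀ l j a, r (P' l a) (y l j))

/-- from Blow in a subgraph of good edges to Blow2 -/
theorem blow2_of_blow (r r' : A → B → Prop) (hr' : ∀ a b, r' a b → r a b)
    (s k q0 s' t K D L : ℕ) (hq0 : 1 ≤ q0) (ht : 0 < t) (hs' : 1 ≤ s' ∨ k = 0)
    (hlow : ∀ b, D ≤ deg2 r b) (hup : ∀ b, deg2 r b ≤ K * D)
    (hbet : ∀ a b, r' a b → (bet r q0 L a b : ℝ) ≤ 1 / (2 * t) * (D : ℝ) ^ q0)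
    (hD : 2 * q0 * ((t + s * (q0 + 1) + k * q0) * K ^ (q0 - 1)) < D)
    (hL : k * t + (s * t + s') ≤ L)
    (hB : Blow r' s (q0 + 1) s' t) : Blow2 r s k q0 s' t := by
  obtain ⟨c, x, P, w, h1, h2, h3, h4, h5, h6, h7, h8, h9⟩ := hB
  obtain ⟨P', g1, g2, g3⟩ : ∃ P' : Fin k → Fin q0 → A,
      Function.Injective (fun z : Fin k × Fin q0 => P' z.1 z.2) ∧
      (∀ l a, P' l a ∉ (Finset.univ.image c ∪
        Finset.univ.image (fun z : Fin s × Fin (q0 + 1) => P z.1 z.2))) ∧ ∀ l j,
      Function.Injective (Fin.cons (c j) (P' l) : Fin (q0 + 1) → A) ∧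
      L ≤ codeg r (Fin.cons (c j) (P' l) : Fin (q0 + 1) → A) := by
    rcases hs' with hs' | hk
    · apply extk r q0 t (t + s * (q0 + 1) + k * q0) K D L hq0 ht c (w ⟨0, hs'⟩) (hlow _) (hup _)
        (fun j => hbet _ _ (h8 j _)) hD
      have e1 : (Finset.univ.image c ∪
        Finset.univ.image (fun z : Fin s × Fin (q0 + 1) => P z.1 z.2)).card ≤
          t + s * (q0 + 1) := by
        refine (Finset.card_union_le _ _).trans (Nat.add_le_add ?_ ?_)
        · exact Finset.card_image_le.trans (by simp)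
        · exact Finset.card_image_le.trans (by simp)
      omega
    · subst hk
      exact ⟨fun i => Fin.elim0 i, fun z => Fin.elim0 z.1, fun l => Fin.elim0 l,
        fun l => Fin.elim0 l⟩
  let R : Finset B := Finset.univ.image (fun z : Fin s × Fin t => x z.1 z.2) ∪ Finset.univ.image w
  have hR : R.card ≤ s * t + s' := by
    refine (Finset.card_union_le _ _).trans (Nat.add_le_add ?_ ?_)
    · exact Finset.card_image_le.trans (by simp)
    · exact Finset.card_image_le.trans (by simp)
  obtain ⟨y, y1, y2⟩ := sdr2 (ι := Fin k × Fin t) (fun z =>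
    (Finset.univ.filter (fun b : B => ∀ i, r ((Fin.cons (c z.2) (P' z.1) : Fin (q0 + 1) → A) i) b))
      \ R) (by
      intro z
      have e1 := (g3 z.1 z.2).2
      rw [codeg] at e1
      have e2 := Finset.le_card_sdiff R (Finset.univ.filter (fun b : B => ∀ i,
        r ((Fin.cons (c z.2) (P' z.1) : Fin (q0 + 1) → A) i) b))
      rw [Fintype.card_prod, Fintype.card_fin, Fintype.card_fin]
      omega)
  have y3 : ∀ z i, r ((Fin.cons (c z.2) (P' z.1) : Fin (q0 + 1) → A) i) (y z) := by
    intro z i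
    have := y2 z
    rw [Finset.mem_sdiff, Finset.mem_filter] at this
    exact this.1.2 i
  have y4 : ∀ z, y z ∉ R := by
    intro z
    have := y2 z
    rw [Finset.mem_sdiff] at this
    exact this.2
  refine ⟨c, x, fun l j => y (l, j), P, P', w, ?_, ?_, fun i j => hr' _ _ (h7 i j), ?_,
    fun j l => hr' _ _ (h8 j l), fun i j a => hr' _ _ (h9 i j a), ?_⟩
  · refine Function.Injective.sumElim h1 (Function.Injective.sumElim h3 g1 ?_) ?_
    · rintro z z' h
      apply g2 z'.1 z'.2
      rw [← h, Finset.mem_union]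
      exact Or.inr (Finset.mem_image.mpr ⟨z, Finset.mem_univ _, rfl⟩)
    · rintro j (z | z) h
      · exact h5 j z.1 z.2 h
      · apply g2 z.1 z.2
        have h' : c j = P' z.1 z.2 := h
        rw [← h', Finset.mem_union]
        exact Or.inl (Finset.mem_image.mpr ⟨j, Finset.mem_univ _, rfl⟩)
  · refine Function.Injective.sumElim h2 (Function.Injective.sumElim y1 h4 ?_) ?_
    · intro z l h
      have h' : y z = w l := h
      apply y4 z
      rw [h']
      exact Finset.mem_union_right _ (Finset.mem_image.mpr ⟨l, Finset.mem_univ _, rfl⟩)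
    · rintro z (z' | l) h
      · have h' : x z.1 z.2 = y z' := h
        apply y4 z'
        rw [← h']
        exact Finset.mem_union_left _ (Finset.mem_image.mpr ⟨z, Finset.mem_univ _, rfl⟩)
      · exact h6 z.1 z.2 l h
  · intro l j
    have := y3 (l, j) 0
    rwa [Fin.cons_zero] at this
  · intro l j a
    have := y3 (l, j) a.succ
    rwa [Fin.cons_succ] at this

end Pool.Agent.W590.BCI
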