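import Pool.Agent.W590.BC.Tree
import Pool.Agent.W247.BC.REG

set_option autoImplicit false
set_option linter.unusedSectionVars false
set_option linter.unusedVariables false

open Classical

namespace Pool.Agent.W590.BCI

open Pool.Agent.W715.BC Pool.Agent.W389.BC SimpleGraph

theorem tr2' (V : Type) [Fintype V] (T : SimpleGraph V) (R : Set V) (hT : T.IsTree)
    (hind : ∀ u ∈ R, ∀ v ∈ R, ¬ T.Adj u v) (c : V) (hc : c ∈ Rᶜ)
    (hadj : ∀ v ∈ Rᶜ, v ≠ c → T.Adj c v) (q0 : ℕ)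
    (hq : ∀ v ∈ Rᶜ, v ≠ c → rdeg T R v = q0 + 1 ∨ rdeg T R v = q0) :
    ∃ s k s' : ℕ, Lab2 T R s k q0 s' ∧ s' = rdeg T R c ∧
      dens T Rᶜ * (s + k + 1) = s * (q0 + 2) + k * (q0 + 1) + s' ∧
      ((∀ v ∈ Rᶜ, v ≠ c → rdeg T R v = q0 + 1) → k = 0) := by
  have hac := hT.isAcyclic
  have hcR : c ∉ R := hc
  have hnb : ∀ u ∈ R, ∃ y, T.Adj u y ∧ y ∉ R := by
    intro u hu
    have huc : u ≠ c := fun h => hcR (h ▸ hu)
    obtain ⟨p⟩ := hT.connected.preconnected u c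
    cases p with
    | nil => exact absurd rfl huc
    | cons h p => exact ⟨_, h, fun hy => hind u hu _ hy h⟩
  have huniq : ∀ u ∈ R, ∀ y z, y ∉ R → z ∉ R → T.Adj u y → T.Adj u z → y = z := by
    intro u hu y z hy hz h1 h2
    by_contra hne
    by_cases hyc : y = c
    · subst hyc
      exact tri hac h1.symm h2 (hadj z hz (fun h => hne h.symm))
    · by_cases hzc : z = c
      · subst hzc
        exact tri hac h2.symm h1 (hadj y hy hyc)
      · have h3 := quad hac hne h1.symm h2 (hadj y hy hyc).symm (hadj z hz hzc)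
        exact hcR (h3 ▸ hu)
  obtain ⟨s, hs⟩ : ∃ s, ({v | v ∉ R ∧ v ≠ c ∧ rdeg T R v = q0 + 1} : Set V).ncard = s := ⟨_, rfl⟩
  obtain ⟨x, hx, hx'⟩ := enum ({v | v ∉ R ∧ v ≠ c ∧ rdeg T R v = q0 + 1} : Set V) s hs
  have hxR : ∀ i, x i ∉ R := fun i => ((hx' (x i)).2 ⟨i, rfl⟩).1
  have hxc : ∀ i, x i ≠ c := fun i => ((hx' (x i)).2 ⟨i, rfl⟩).2.1
  have hxd : ∀ i, rdeg T R (x i) = q0 + 1 := fun i => ((hx' (x i)).2 ⟨i, rfl⟩).2.2
  obtain ⟨k, hk⟩ : ∃ k, ({v | v ∉ R ∧ v ≠ c ∧ rdeg T R v = q0} : Set V).ncard = k := ⟨_, rfl⟩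
  obtain ⟨y, hy, hy'⟩ := enum ({v | v ∉ R ∧ v ≠ c ∧ rdeg T R v = q0} : Set V) k hk
  have hyR : ∀ i, y i ∉ R := fun i => ((hy' (y i)).2 ⟨i, rfl⟩).1
  have hyc : ∀ i, y i ≠ c := fun i => ((hy' (y i)).2 ⟨i, rfl⟩).2.1
  have hyd : ∀ i, rdeg T R (y i) = q0 := fun i => ((hy' (y i)).2 ⟨i, rfl⟩).2.2
  have hP : ∀ i, ∃ f : Fin (q0 + 1) → V, Function.Injective f ∧
      ∀ v, v ∈ ({u | u ∈ R ∧ T.Adj (x i) u} : Set V) ↔ ∃ a, v = f a := fun i =>
    enum _ (q0 + 1) (hxd i)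
  choose P hP1 hP2 using hP
  have hPR : ∀ i a, P i a ∈ R ∧ T.Adj (x i) (P i a) := fun i a => (hP2 i _).2 ⟨a, rfl⟩
  have hQ : ∀ i, ∃ f : Fin q0 → V, Function.Injective f ∧
      ∀ v, v ∈ ({u | u ∈ R ∧ T.Adj (y i) u} : Set V) ↔ ∃ a, v = f a := fun i =>
    enum _ q0 (hyd i)
  choose Q hQ1 hQ2 using hQ
  have hQR : ∀ i a, Q i a ∈ R ∧ T.Adj (y i) (Q i a) := fun i a => (hQ2 i _).2 ⟨a, rfl⟩
  obtain ⟨w, hw1, hw2⟩ := enum ({u | u ∈ R ∧ T.Adj c u} : Set V) (rdeg T R c) rfl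
  have hwR : ∀ l, w l ∈ R ∧ T.Adj c (w l) := fun l => (hw2 _).2 ⟨l, rfl⟩
  have hxy : ∀ i l, x i ≠ y l := by
    intro i l h
    have h1 := hxd i
    rw [h, hyd l] at h1
    omega
  have hPinj : Function.Injective (fun p : Fin s × Fin (q0 + 1) => P p.1 p.2) := by
    rintro ⟨i, a⟩ ⟨j, b⟩ h
    simp only at h
    have h1 : x i = x j := huniq (P i a) (hPR i a).1 _ _ (hxR i) (hxR j) (hPR i a).2.symm
      (by rw [h]; exact (hPR j b).2.symm)
    have h2 := hx h1
    subst h2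
    rw [hP1 i h]
  have hQinj : Function.Injective (fun p : Fin k × Fin q0 => Q p.1 p.2) := by
    rintro ⟨i, a⟩ ⟨j, b⟩ h
    simp only at h
    have h1 : y i = y j := huniq (Q i a) (hQR i a).1 _ _ (hyR i) (hyR j) (hQR i a).2.symm
      (by rw [h]; exact (hQR j b).2.symm)
    have h2 := hy h1
    subst h2
    rw [hQ1 i h]
  have hPQ : ∀ i a l b, P i a ≠ Q l b := by
    intro i a l b h
    exact hxy i l (huniq (P i a) (hPR i a).1 _ _ (hxR i) (hyR l) (hPR i a).2.symm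
      (by rw [h]; exact (hQR l b).2.symm))
  have hPw : ∀ i a l, P i a ≠ w l := by
    intro i a l h
    exact hxc i (huniq (P i a) (hPR i a).1 _ _ (hxR i) hcR (hPR i a).2.symm
      (by rw [h]; exact (hwR l).2.symm))
  have hQw : ∀ i a l, Q i a ≠ w l := by
    intro i a l h
    exact hyc i (huniq (Q i a) (hQR i a).1 _ _ (hyR i) hcR (hQR i a).2.symm
      (by rw [h]; exact (hwR l).2.symm))
  have hcls : ∀ v, v ∉ R → v ≠ c → (∃ i, v = x i) ∨ ∃ l, v = y l := by
    intro v hv hvc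
    rcases hq v hv hvc with h | h
    · exact Or.inl ((hx' v).1 ⟨hv, hvc, h⟩)
    · exact Or.inr ((hy' v).1 ⟨hv, hvc, h⟩)
  let φ : Lb s k q0 (rdeg T R c) → V := Sum.elim (fun _ : Unit => c) (Sum.elim x (Sum.elim y
      (Sum.elim (fun z : Fin s × Fin (q0 + 1) => P z.1 z.2)
        (Sum.elim (fun z : Fin k × Fin q0 => Q z.1 z.2) w))))
  have hφ : Function.Bijective φ := by
    constructor
    · refine Function.Injective.sumElim (fun a b _ => rfl) (Function.Injective.sumElim hx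
        (Function.Injective.sumElim hy (Function.Injective.sumElim hPinj
          (Function.Injective.sumElim hQinj hw1 ?_) ?_) ?_) ?_) ?_
      · intro z l; exact hQw _ _ _
      · rintro z (z' | l)
        · exact hPQ _ _ _ _
        · exact hPw _ _ _
      · rintro l (z | z | l') h
        · exact hyR l (by rw [show y l = P z.1 z.2 from h]; exact (hPR _ _).1)
        · exact hyR l (by rw [show y l = Q z.1 z.2 from h]; exact (hQR _ _).1)
        · exact hyR l (by rw [show y l = w l' from h]; exact (hwR _).1)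
      · rintro i (l | z | z | l') h
        · exact hxy i l h
        · exact hxR i (by rw [show x i = P z.1 z.2 from h]; exact (hPR _ _).1)
        · exact hxR i (by rw [show x i = Q z.1 z.2 from h]; exact (hQR _ _).1)
        · exact hxR i (by rw [show x i = w l' from h]; exact (hwR _).1)
      · rintro _ (i | l | z | z | l') h
        · exact hxc i h.symm
        · exact hyc l h.symm
        · exact hcR (by rw [show c = P z.1 z.2 from h]; exact (hPR _ _).1)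
        · exact hcR (by rw [show c = Q z.1 z.2 from h]; exact (hQR _ _).1)
        · exact hcR (by rw [show c = w l' from h]; exact (hwR _).1)
    · intro v
      by_cases hv : v ∈ R
      · obtain ⟨u, hu, huR⟩ := hnb v hv
        by_cases huc : u = c
        · subst huc
          obtain ⟨l, hl⟩ := (hw2 v).1 ⟨hv, hu.symm⟩
          exact ⟨Sum.inr (Sum.inr (Sum.inr (Sum.inr (Sum.inr l)))), hl.symm⟩
        · rcases hcls u huR huc with ⟨i, rfl⟩ | ⟨l, rfl⟩
          · obtain ⟨a, ha⟩ := (hP2 i v).1 ⟨hv, hu.symm⟩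
            exact ⟨Sum.inr (Sum.inr (Sum.inr (Sum.inl (i, a)))), ha.symm⟩
          · obtain ⟨a, ha⟩ := (hQ2 l v).1 ⟨hv, hu.symm⟩
            exact ⟨Sum.inr (Sum.inr (Sum.inr (Sum.inr (Sum.inl (l, a))))), ha.symm⟩
      · by_cases hvc : v = c
        · exact ⟨Sum.inl (), hvc.symm⟩
        · rcases hcls v hv hvc with ⟨i, hi⟩ | ⟨l, hl⟩
          · exact ⟨Sum.inr (Sum.inl i), hi.symm⟩
          · exact ⟨Sum.inr (Sum.inr (Sum.inl l)), hl.symm⟩
  have hcard : Rᶜ.ncard = s + k + 1 := by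
    have h1 : Rᶜ = insert c (({v | v ∉ R ∧ v ≠ c ∧ rdeg T R v = q0 + 1} : Set V) ∪
        ({v | v ∉ R ∧ v ≠ c ∧ rdeg T R v = q0} : Set V)) := by
      ext v
      simp only [Set.mem_compl_iff, Set.mem_insert_iff, Set.mem_union, Set.mem_ofPred_eq]
      constructor
      · intro h
        by_cases hvc : v = c
        · exact Or.inl hvc
        · rcases hq v h hvc with h2 | h2
          · exact Or.inr (Or.inl ⟨h, hvc, h2⟩)
          · exact Or.inr (Or.inr ⟨h, hvc, h2⟩)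
      · rintro (h | h | h)
        · rw [h]; exact hcR
        · exact h.1
        · exact h.1
    rw [h1, Set.ncard_insert_of_notMem (by simp), Set.ncard_union_eq, hs, hk]
    · rw [Set.disjoint_left]
      intro v h2 h3
      have h4 := h2.2.2
      rw [h3.2.2] at h4
      omega
  refine ⟨s, k, rdeg T R c, ⟨c, x, y, P, Q, w, hφ, hcR, hxR, hyR, fun i a => (hPR i a).1,
    fun l a => (hQR l a).1, fun l => (hwR l).1, ?_⟩, rfl, ?_, ?_⟩
  · -- edges
    have hone : ∀ u v, T.Adj u v → u ∉ R → v ∈ R → (∃ i a, u = x i ∧ v = P i a) ∨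
        (∃ l a, u = y l ∧ v = Q l a) ∨ ∃ l, u = c ∧ v = w l := by
      intro u v huv hu hv
      by_cases huc : u = c
      · subst huc
        obtain ⟨l, hl⟩ := (hw2 v).1 ⟨hv, huv⟩
        exact Or.inr (Or.inr ⟨l, rfl, hl⟩)
      · rcases hcls u hu huc with ⟨i, rfl⟩ | ⟨l, rfl⟩
        · obtain ⟨a, ha⟩ := (hP2 i v).1 ⟨hv, huv⟩
          exact Or.inl ⟨i, a, rfl, ha⟩
        · obtain ⟨a, ha⟩ := (hQ2 l v).1 ⟨hv, huv⟩
          exact Or.inr (Or.inl ⟨l, a, rfl, ha⟩)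
    intro u v huv
    by_cases hu : u ∈ R
    · by_cases hv : v ∈ R
      · exact absurd huv (hind u hu v hv)
      · rcases hone v u huv.symm hv hu with ⟨i, a, h1, h2⟩ | ⟨l, a, h1, h2⟩ | ⟨l, h1, h2⟩
        · exact Or.inr (Or.inr (Or.inl ⟨i, a, Or.inr ⟨h1, h2⟩⟩))
        · exact Or.inr (Or.inr (Or.inr (Or.inl ⟨l, a, Or.inr ⟨h1, h2⟩⟩)))
        · exact Or.inr (Or.inr (Or.inr (Or.inr ⟨l, Or.inr ⟨h1, h2⟩⟩)))
    · by_cases hv : v ∈ R
      · rcases hone u v huv hu hv with ⟨i, a, h1, h2⟩ | ⟨l, a, h1, h2⟩ | ⟨l, h1, h2⟩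
        · exact Or.inr (Or.inr (Or.inl ⟨i, a, Or.inl ⟨h1, h2⟩⟩))
        · exact Or.inr (Or.inr (Or.inr (Or.inl ⟨l, a, Or.inl ⟨h1, h2⟩⟩)))
        · exact Or.inr (Or.inr (Or.inr (Or.inr ⟨l, Or.inl ⟨h1, h2⟩⟩)))
      · by_cases huc : u = c
        · rcases hcls v hv (fun h => huv.ne (huc.trans h.symm)) with ⟨i, hi⟩ | ⟨l, hl⟩
          · exact Or.inl ⟨i, Or.inl ⟨huc, hi⟩⟩
          · exact Or.inr (Or.inl ⟨l, Or.inl ⟨huc, hl⟩⟩)
        · by_cases hvc : v = c
          · rcases hcls u hu huc with ⟨i, hi⟩ | ⟨l, hl⟩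
            · exact Or.inl ⟨i, Or.inr ⟨hvc, hi⟩⟩
            · exact Or.inr (Or.inl ⟨l, Or.inr ⟨hvc, hl⟩⟩)
          · exact absurd huv (tri hac (hadj u hu huc).symm (hadj v hv hvc))
  · -- the density
    have h1 : ({e | e ∈ T.edgeSet ∧ ∃ v ∈ Rᶜ, v ∈ e} : Set (Sym2 V)) = T.edgeSet := by
      ext e
      constructor
      · exact fun h => h.1
      · intro h
        refine ⟨h, ?_⟩
        induction e using Sym2.ind with
        | _ u v =>
          rw [mem_edgeSet] at h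
          by_cases hu : u ∈ R
          · exact ⟨v, fun hv => hind u hu v hv h, by simp⟩
          · exact ⟨u, hu, by simp⟩
    have h2 : T.edgeSet.ncard + 1 = Fintype.card V := by
      have := hT.card_edgeFinset
      rw [← this, ← coe_edgeFinset, Set.ncard_coe_finset]
    have h3 : Fintype.card V = 1 + (s + (k + (s * (q0 + 1) + (k * q0 + rdeg T R c)))) := by
      rw [← Fintype.card_of_bijective hφ]
      simp
    have h4 : (T.edgeSet.ncard : ℝ) = s * (q0 + 2) + k * (q0 + 1) + rdeg T R c := by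
      have h5 : T.edgeSet.ncard = s * (q0 + 2) + k * (q0 + 1) + rdeg T R c := by
        rw [h3] at h2
        have e1 : s * (q0 + 2) = s * (q0 + 1) + s := by ring
        have e2 : k * (q0 + 1) = k * q0 + k := by ring
        omega
      rw [h5]; push_cast; ring
    unfold dens
    rw [h1, hcard, h4]
    push_cast
    field_simp
  · intro hall
    by_contra hk0
    have : 0 < k := by omega
    have h1 := hall (y ⟨0, this⟩) (hyR _) (hyc _)
    rw [hyd] at h1
    omega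

theorem pow_ineq (C N D ε : ℝ) (hC : 1 ≤ C) (hN : 1 ≤ N) (hD : C * N ^ ε ≤ D) (m k : ℕ)
    (hm : 1 ≤ m) (hk : (k : ℝ) ≤ ε * m) : C * N ^ k ≤ D ^ m := by
  have hN0 : 0 < N := lt_of_lt_of_le one_pos hN
  have h1 : (C * N ^ ε) ^ m ≤ D ^ m := pow_le_pow_left₀ (by positivity) hD m
  refine le_trans ?_ h1
  rw [mul_pow]
  apply mul_le_mul
  · exact le_self_pow₀ hC (by omega)
  · rw [← Real.rpow_natCast N k, ← Real.rpow_natCast (N ^ ε) m, ← Real.rpow_mul hN0.le]
    exact Real.rpow_le_rpow_of_exponent_le hN hk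
  · positivity
  · positivity

/-- the theorem in terms of the numbers -/
theorem main_numbers (s s' k q0 t : ℕ) (hq : s + s' = q0 + 1) (hq0 : 1 ≤ q0) (ht : 0 < t)
    (hs' : 1 ≤ s' ∨ k = 0) :
    ∃ C : ℝ, ∀ n : ℕ, ∀ G : SimpleGraph (Fin n), ¬ GB2 G s k q0 s' t →
      (G.edgeSet.ncard : ℝ) ≤ C * (n : ℝ) ^ (2 - 1 / ((q0 : ℝ) + 1)) := by
  have hq0R : (1 : ℝ) ≤ q0 := by exact_mod_cast hq0
  set ρ : ℝ := (q0 : ℝ) + 1 with hρ
  have hρ0 : 0 < ρ := by positivity
  have hρ1 : 1 < ρ := by rw [hρ]; linarith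
  set ε : ℝ := 1 - 1 / ρ with hε
  have hε0 : 0 < ε := by
    rw [hε, sub_pos, div_lt_one hρ0]; exact hρ1
  have hε1 : ε < 1 := by
    rw [hε]; have : 0 < 1 / ρ := by positivity
    linarith
  obtain ⟨K, hK, hreg⟩ := Pool.Agent.W247.BC.reg_holds ε hε0 hε1
  obtain ⟨C0, hC0, hcore⟩ := mix_case s s' k q0 t K hq hq0 ht hK hs'
  obtain ⟨C', hC'⟩ := hreg (max C0 1)
  refine ⟨C', fun n G hno => ?_⟩
  by_contra hcon
  push Not at hcon
  rw [show (2 - 1 / ρ) = 1 + ε by rw [hε]; ring] at hcon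
  obtain ⟨U, W, D, hUW, hU, hW, hD, hdU, hdW⟩ := hC' n G hcon
  apply hno
  have hN : (1 : ℝ) ≤ ((U.card + W.card : ℕ) : ℝ) := by
    have := hU.card_pos
    exact_mod_cast (by omega : 1 ≤ U.card + W.card)
  have hC1 : (1 : ℝ) ≤ max C0 1 := le_max_right _ _
  have hC0' : C0 ≤ max C0 1 := le_max_left _ _
  have hgen : ∀ m k : ℕ, 1 ≤ m → (k : ℝ) ≤ ε * m →
      C0 * ((U.card + W.card : ℕ) : ℝ) ^ k ≤ (D : ℝ) ^ m := by
    intro m k hm hk
    refine le_trans ?_ (pow_ineq (max C0 1) _ D ε hC1 hN hD m k hm hk)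
    exact mul_le_mul_of_nonneg_right hC0' (by positivity)
  have hUne : Nonempty U := by
    obtain ⟨u, hu⟩ := hU
    exact ⟨⟨u, hu⟩⟩
  have hcU : Fintype.card U = U.card := Fintype.card_coe U
  have hcW : Fintype.card W = W.card := Fintype.card_coe W
  have hfilt1 : ∀ u : U, deg1 (fun (u : U) (w : W) => G.Adj u.1 w.1) u =
      (W.filter (fun w => G.Adj u.1 w)).card := by
    intro u
    unfold deg1
    rw [← Finset.card_map (Function.Embedding.subtype _)]
    congr 1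
    ext v
    simp only [Finset.mem_map, Finset.mem_filter, Finset.mem_univ, true_and,
      Function.Embedding.coe_subtype]
    constructor
    · rintro ⟨a, ha, rfl⟩
      exact ⟨a.2, ha⟩
    · rintro ⟨h1, h2⟩
      exact ⟨⟨v, h1⟩, h2, rfl⟩
  have hfilt2 : ∀ w : W, deg2 (fun (u : U) (w : W) => G.Adj u.1 w.1) w =
      (U.filter (fun u => G.Adj u w.1)).card := by
    intro w
    unfold deg2
    rw [← Finset.card_map (Function.Embedding.subtype _)]
    congr 1
    ext v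
    simp only [Finset.mem_map, Finset.mem_filter, Finset.mem_univ, true_and,
      Function.Embedding.coe_subtype]
    constructor
    · rintro ⟨a, ha, rfl⟩
      exact ⟨a.2, ha⟩
    · rintro ⟨h1, h2⟩
      exact ⟨⟨v, h1⟩, h2, rfl⟩
  have hmain := hcore U W (fun (u : U) (w : W) => G.Adj u.1 w.1) D ⟨?_, ?_, ?_, ?_⟩ ?_ ?_
  · rcases hmain with h | h
    · exact gb2_of_blow2 G U W hUW s k q0 s' t h
    · exact gb2_of_blow2' G U W hUW s k q0 s' t h
  · intro u; rw [hfilt1]; exact (hdU u.1 u.2).1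
  · intro u; rw [hfilt1]; exact (hdU u.1 u.2).2
  · intro w; rw [hfilt2]; exact (hdW w.1 w.2).1
  · intro w; rw [hfilt2]; exact (hdW w.1 w.2).2
  · have := hgen 1 0 le_rfl (by simp; exact hε0.le)
    simpa using this
  · rw [hcU, hcW]
    apply hgen _ _ (by omega)
    rw [hε, hρ]
    push_cast
    have : (1 : ℝ) / ((q0 : ℝ) + 1) * ((q0 : ℝ) + 1) = 1 := by field_simp
    nlinarith

end Pool.Agent.W590.BCI
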