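import Pool.Agent.W590.BC.Core

set_option autoImplicit false
set_option linter.unusedSectionVars false

open Classical Finset

namespace Pool.Agent.W590.BCI

open Pool.Agent.W715.BC

theorem core (s s' t K : ℕ) (c : ℝ) (hs : 1 ≤ s) (ht : 0 < t) (hc : 0 < c) :
    ∃ C : ℝ, 0 < C ∧ ∀ (A B : Type) [Fintype A] [Fintype B] (r : A → B → Prop) (D : ℕ)
    (Y : Finset B) (H1 : Finset (Fin (s + s') → A)) (H2 : Finset (Fin (s + s') → B)),
    (∀ Q ∈ H2, Function.Injective Q ∧ (∀ i, Q i ∈ Y) ∧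
      t + s * (s + s') ≤ codeg (fun b a => r a b) Q) →
    (∀ b ∈ Y, c * (D : ℝ) ^ (s + s') ≤ ((H1.filter (fun p => ∀ i, r (p i) b)).card : ℝ)) →
    (∀ b, deg2 r b ≤ K * D) → H2.Nonempty → H1.card ≤ H2.card →
    C ≤ (D : ℝ) → C * (Fintype.card B : ℝ) ^ (s + s' - 1) ≤ (D : ℝ) ^ (s + s') →
    Blow r s (s + s') s' t := by
  set q := s + s' with hq
  let C0 : ℝ := (s ^ 2 * t * K ^ (q * (s - 1)) + (s * q) ^ 2 * K ^ (s * q - 1) + 1 : ℝ)
  have hC0 : 0 < C0 := by positivity
  have hcs : 0 < c ^ s := pow_pos hc s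
  refine ⟨C0 / c ^ s, div_pos hC0 hcs, ?_⟩
  intro A B _ _ r D Y H1 H2 hH2 hY hdeg hne hle hCD hCB
  by_contra hB
  have hDpos : (0 : ℝ) < D := lt_of_lt_of_le (div_pos hC0 hcs) hCD
  -- lower bound
  let m := ⌈c * (D : ℝ) ^ q⌉₊
  have hm1 : c * (D : ℝ) ^ q ≤ (m : ℝ) := Nat.le_ceil _
  have hm2 : ∀ b ∈ Y, m ≤ (H1.filter (fun p => ∀ i, r (p i) b)).card := by
    intro b hb
    exact Nat.ceil_le.mpr (hY b hb)
  have hlow := lower r H1 H2 Y (K * D) m (fun Q hQ => (hH2 Q hQ).2.1) hm2 hdeg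
  have hup := upper r hs ht H1 H2 (fun Q hQ => ⟨(hH2 Q hQ).1, (hH2 Q hQ).2.2⟩) hB
  have hS := sum_VV r H1 (K * D) hdeg
  have hup2 : (MM r H1 H2).card ≤ (Fintype.card B) ^ s' * (s * ((s * t * H2.card) *
      (Fintype.card B * (K * D) ^ (s + s')) ^ (s - 1))) := by
    refine hup.trans ?_
    gcongr
  have hh2 : (0 : ℝ) < (H2.card : ℝ) := by exact_mod_cast hne.card_pos
  have hlow' : (H2.card : ℝ) * (m : ℝ) ^ s ≤ ((Fintype.card B : ℝ) ^ s' * (s * ((s * t * H2.card) *
      (Fintype.card B * (K * D) ^ (s + s')) ^ (s - 1)))) +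
      H2.card * ((s * (s + s')) ^ 2 * (K * D) ^ (s * (s + s') - 1)) := by
    have := hlow.trans (Nat.add_le_add_right hup2 _)
    exact_mod_cast this
  have hmain : (m : ℝ) ^ s ≤ ((Fintype.card B : ℝ) ^ s' * (s * ((s * t) *
      (Fintype.card B * (K * D) ^ (s + s')) ^ (s - 1)))) +
      ((s * (s + s')) ^ 2 * (K * D) ^ (s * (s + s') - 1)) := by
    have h1 : (H2.card : ℝ) * (m : ℝ) ^ s ≤ (H2.card : ℝ) * (((Fintype.card B : ℝ) ^ s' *
      (s * ((s * t) * (Fintype.card B * (K * D) ^ (s + s')) ^ (s - 1)))) +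
      ((s * (s + s')) ^ 2 * (K * D) ^ (s * (s + s') - 1))) := by
      refine hlow'.trans (le_of_eq ?_)
      ring
    exact le_of_mul_le_mul_left h1 hh2
  have hcD : (c * (D : ℝ) ^ q) ^ s ≤ (m : ℝ) ^ s := pow_le_pow_left₀ (by positivity) hm1 s
  have hchain := hcD.trans hmain
  -- rewrite
  have hq1 : 1 ≤ q := by omega
  have hBq : (Fintype.card B : ℝ) ^ s' * (Fintype.card B : ℝ) ^ (s - 1) =
      (Fintype.card B : ℝ) ^ (q - 1) := by
    rw [← pow_add]; congr 1; omega
  have hd1 : (D : ℝ) ^ (q * s) = (D : ℝ) ^ (q * (s - 1)) * (D : ℝ) ^ q := by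
    rw [← pow_add]; congr 1
    obtain ⟨s0, rfl⟩ : ∃ s0, s = s0 + 1 := ⟨s - 1, by omega⟩
    simp; ring
  have hd2 : (D : ℝ) ^ (q * s) = (D : ℝ) ^ (s * q - 1) * (D : ℝ) := by
    rw [← pow_succ]; congr 1
    have : 1 ≤ s * q := Nat.one_le_iff_ne_zero.mpr (by positivity)
    rw [Nat.sub_add_cancel this, mul_comm]
  have e1 : (Fintype.card B : ℝ) ^ s' * (s * ((s * t) *
      (Fintype.card B * (K * D) ^ (s + s')) ^ (s - 1))) =
      (s ^ 2 * t * K ^ (q * (s - 1)) : ℝ) * (D : ℝ) ^ (q * (s - 1)) *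
        (Fintype.card B : ℝ) ^ (q - 1) := by
    rw [← hBq, ← hq]
    rw [mul_pow (Fintype.card B : ℝ), ← pow_mul, mul_pow (K : ℝ)]
    ring
  have e2 : ((s : ℝ) * (s + s')) ^ 2 * ((K : ℝ) * D) ^ (s * (s + s') - 1) =
      ((s * q) ^ 2 * K ^ (s * q - 1) : ℝ) * (D : ℝ) ^ (s * q - 1) := by
    rw [mul_pow (K : ℝ), ← hq]
    have : (q : ℝ) = (s : ℝ) + s' := by rw [hq]; push_cast; ring
    rw [this]; ring
  rw [e1, e2] at hchain
  -- bound both terms
  have hC' : C0 ≤ c ^ s * (D : ℝ) := by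
    have := (div_le_iff₀ hcs).mp hCD
    linarith
  have hC'' : C0 * (Fintype.card B : ℝ) ^ (q - 1) ≤ c ^ s * (D : ℝ) ^ q := by
    have h1 : C0 * (Fintype.card B : ℝ) ^ (q - 1) / c ^ s ≤ (D : ℝ) ^ q := by
      rw [mul_div_right_comm]; exact hCB
    have := (div_le_iff₀ hcs).mp h1
    linarith
  have f1 : C0 * ((D : ℝ) ^ (q * (s - 1)) * (Fintype.card B : ℝ) ^ (q - 1)) ≤
      c ^ s * (D : ℝ) ^ (q * s) := by
    rw [hd1]
    calc C0 * ((D : ℝ) ^ (q * (s - 1)) * (Fintype.card B : ℝ) ^ (q - 1)) =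
        (D : ℝ) ^ (q * (s - 1)) * (C0 * (Fintype.card B : ℝ) ^ (q - 1)) := by ring
      _ ≤ (D : ℝ) ^ (q * (s - 1)) * (c ^ s * (D : ℝ) ^ q) := by gcongr
      _ = _ := by ring
  have f2 : C0 * (D : ℝ) ^ (s * q - 1) ≤ c ^ s * (D : ℝ) ^ (q * s) := by
    rw [hd2]
    calc C0 * (D : ℝ) ^ (s * q - 1) ≤ (c ^ s * (D : ℝ)) * (D : ℝ) ^ (s * q - 1) := by gcongr
      _ = _ := by ring
  have g0 : (c * (D : ℝ) ^ q) ^ s = c ^ s * (D : ℝ) ^ (q * s) := by
    rw [mul_pow, ← pow_mul]
  rw [g0] at hchain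
  set Z : ℝ := c ^ s * (D : ℝ) ^ (q * s) with hZ
  have hZpos : 0 < Z := by positivity
  have g1 : C0 * Z ≤ (s ^ 2 * t * K ^ (q * (s - 1)) + (s * q) ^ 2 * K ^ (s * q - 1) : ℝ) * Z := by
    calc C0 * Z ≤ C0 * ((s ^ 2 * t * K ^ (q * (s - 1)) : ℝ) * (D : ℝ) ^ (q * (s - 1)) *
        (Fintype.card B : ℝ) ^ (q - 1) +
        ((s * q) ^ 2 * K ^ (s * q - 1) : ℝ) * (D : ℝ) ^ (s * q - 1)) := by gcongr
      _ = (s ^ 2 * t * K ^ (q * (s - 1)) : ℝ) *
          (C0 * ((D : ℝ) ^ (q * (s - 1)) * (Fintype.card B : ℝ) ^ (q - 1))) +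
          ((s * q) ^ 2 * K ^ (s * q - 1) : ℝ) * (C0 * (D : ℝ) ^ (s * q - 1)) := by ring
      _ ≤ (s ^ 2 * t * K ^ (q * (s - 1)) : ℝ) * Z + ((s * q) ^ 2 * K ^ (s * q - 1) : ℝ) * Z := by
          gcongr
      _ = _ := by ring
  have g2 := le_of_mul_le_mul_right g1 hZpos
  simp only [C0] at g2
  linarith

variable {A B : Type} [Fintype A] [Fintype B]

/-- number of edges between two sets -/
noncomputable def EE (r : A → B → Prop) (X : Finset A) (Y : Finset B) : ℕ :=
  ((X ×ˢ Y).filter (fun z => r z.1 z.2)).card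

theorem EE_left (r : A → B → Prop) (X : Finset A) (Y : Finset B) :
    EE r X Y = ∑ a ∈ X, (Y.filter (fun b => r a b)).card := by
  simp only [EE, Finset.card_filter]
  rw [Finset.sum_product]

theorem EE_right (r : A → B → Prop) (X : Finset A) (Y : Finset B) :
    EE r X Y = ∑ b ∈ Y, (X.filter (fun a => r a b)).card := by
  simp only [EE, Finset.card_filter]
  rw [Finset.sum_product_right]

/-- a subgraph of large minimum degree that avoids few bad vertices -/
theorem clean (r : A → B → Prop) (D K : ℕ) (hD : 0 < D) (hr : Reg r D K)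
    (WA : Finset A) (WB : Finset B)
    (hW : 8 * K * (WA.card + WB.card) < Fintype.card A + Fintype.card B) :
    ∃ (X : Finset A) (Y : Finset B), X.Nonempty ∧ Y.Nonempty ∧ (∀ a ∈ X, a ∉ WA) ∧
      (∀ b ∈ Y, b ∉ WB) ∧ (∀ a ∈ X, D ≤ 4 * (Y.filter (fun b => r a b)).card) ∧
      (∀ b ∈ Y, D ≤ 4 * (X.filter (fun a => r a b)).card) := by
  let f : Finset A × Finset B → ℤ := fun z => 4 * (EE r z.1 z.2 : ℤ) - D * (z.1.card + z.2.card)
  obtain ⟨⟨X, Y⟩, hXY, hmax⟩ := Finset.exists_max_image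
    ((Finset.univ \ WA).powerset ×ˢ (Finset.univ \ WB).powerset) f
    ⟨(∅, ∅), by simp⟩
  rw [Finset.mem_product, Finset.mem_powerset, Finset.mem_powerset] at hXY
  simp only at hXY
  have hX : ∀ a ∈ X, a ∉ WA := fun a ha => (Finset.mem_sdiff.mp (hXY.1 ha)).2
  have hY : ∀ b ∈ Y, b ∉ WB := fun b hb => (Finset.mem_sdiff.mp (hXY.2 hb)).2
  -- the value at the whole set
  have h0 : EE r Finset.univ Finset.univ ≤ EE r (Finset.univ \ WA) (Finset.univ \ WB) +
      (WA.card + WB.card) * (K * D) := by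
    have h1 : ((Finset.univ : Finset A) ×ˢ (Finset.univ : Finset B)).filter (fun z => r z.1 z.2) ⊆
        (((Finset.univ \ WA) ×ˢ (Finset.univ \ WB)).filter (fun z => r z.1 z.2)) ∪
        ((WA ×ˢ (Finset.univ : Finset B)).filter (fun z => r z.1 z.2) ∪
        ((Finset.univ : Finset A) ×ˢ WB).filter (fun z => r z.1 z.2)) := by
      intro z hz
      rw [Finset.mem_filter] at hz
      simp only [Finset.mem_union, Finset.mem_filter, Finset.mem_product, Finset.mem_sdiff,
        Finset.mem_univ, true_and, and_true]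
      have := hz.2
      tauto
    have h2 := (Finset.card_le_card h1).trans ((Finset.card_union_le _ _).trans
      (Nat.add_le_add_left (Finset.card_union_le _ _) _))
    have h3 : ((WA ×ˢ (Finset.univ : Finset B)).filter (fun z => r z.1 z.2)).card ≤
        WA.card * (K * D) := by
      have := EE_left r WA Finset.univ
      rw [EE] at this
      rw [this]
      exact (Finset.sum_le_card_nsmul _ _ _ (fun a _ => hr.ua a)).trans (le_of_eq (by simp))
    have h4 : (((Finset.univ : Finset A) ×ˢ WB).filter (fun z => r z.1 z.2)).card ≤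
        WB.card * (K * D) := by
      have := EE_right r Finset.univ WB
      rw [EE] at this
      rw [this]
      exact (Finset.sum_le_card_nsmul _ _ _ (fun a _ => hr.ub a)).trans (le_of_eq (by simp))
    rw [EE, EE]
    rw [Nat.add_mul]
    omega
  have h5 : D * Fintype.card A ≤ EE r Finset.univ Finset.univ := by
    rw [EE_left]
    have := Finset.card_nsmul_le_sum (Finset.univ : Finset A)
      (fun a => ((Finset.univ : Finset B).filter (fun b => r a b)).card) D (fun a _ => hr.la a)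
    rw [Finset.card_univ, smul_eq_mul] at this
    rw [mul_comm]; exact this
  have h6 : D * Fintype.card B ≤ EE r Finset.univ Finset.univ := by
    rw [EE_right]
    have := Finset.card_nsmul_le_sum (Finset.univ : Finset B)
      (fun b => ((Finset.univ : Finset A).filter (fun a => r a b)).card) D (fun b _ => hr.lb b)
    rw [Finset.card_univ, smul_eq_mul] at this
    rw [mul_comm]; exact this
  have hpos : 0 < f (Finset.univ \ WA, Finset.univ \ WB) := by
    have h7 : (Finset.univ \ WA).card ≤ Fintype.card A := Finset.card_le_univ _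
    have h8 : (Finset.univ \ WB).card ≤ Fintype.card B := Finset.card_le_univ _
    have h9 : D * (8 * K * (WA.card + WB.card)) < D * (Fintype.card A + Fintype.card B) :=
      Nat.mul_lt_mul_of_pos_left hW hD
    have h10 : D * ((Finset.univ \ WA).card + (Finset.univ \ WB).card) ≤
        D * (Fintype.card A + Fintype.card B) := Nat.mul_le_mul_left _ (by omega)
    simp only [f]
    have h0' : (EE r Finset.univ Finset.univ : ℤ) ≤ EE r (Finset.univ \ WA) (Finset.univ \ WB) +
      (WA.card + WB.card) * (K * D) := by exact_mod_cast h0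
    have h5' : (D : ℤ) * Fintype.card A ≤ EE r Finset.univ Finset.univ := by exact_mod_cast h5
    have h6' : (D : ℤ) * Fintype.card B ≤ EE r Finset.univ Finset.univ := by exact_mod_cast h6
    have h9' : (D : ℤ) * (8 * K * (WA.card + WB.card)) < D * (Fintype.card A + Fintype.card B) := by
      exact_mod_cast h9
    have h10' : (D : ℤ) * ((Finset.univ \ WA).card + (Finset.univ \ WB).card) ≤
        D * (Fintype.card A + Fintype.card B) := by exact_mod_cast h10
    nlinarith
  have hval : 0 < f (X, Y) := lt_of_lt_of_le hpos (hmax _ (by simp))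
  have hEE : 0 < EE r X Y := by
    by_contra hcon
    have : EE r X Y = 0 := by omega
    simp only [f, this] at hval
    have : (0 : ℤ) ≤ D * (X.card + Y.card) := by positivity
    simp at hval
    linarith
  have hXne : X.Nonempty := by
    rw [Finset.nonempty_iff_ne_empty]; rintro rfl; simp [EE] at hEE
  have hYne : Y.Nonempty := by
    rw [Finset.nonempty_iff_ne_empty]; rintro rfl; simp [EE] at hEE
  refine ⟨X, Y, hXne, hYne, hX, hY, ?_, ?_⟩
  · intro a ha
    have h11 := hmax (X.erase a, Y) (by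
      rw [Finset.mem_product, Finset.mem_powerset, Finset.mem_powerset]
      exact ⟨(Finset.erase_subset _ _).trans hXY.1, hXY.2⟩)
    have h12 : EE r X Y = (Y.filter (fun b => r a b)).card + EE r (X.erase a) Y := by
      rw [EE_left, EE_left]
      exact (Finset.add_sum_erase X (fun a => (Y.filter (fun b => r a b)).card) ha).symm
    have h13 := Finset.card_erase_add_one ha
    simp only [f] at h11
    have h12' : (EE r X Y : ℤ) = (Y.filter (fun b => r a b)).card + EE r (X.erase a) Y := by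
      exact_mod_cast h12
    have h13' : ((X.erase a).card : ℤ) + 1 = X.card := by exact_mod_cast h13
    zify
    nlinarith
  · intro b hb
    have h11 := hmax (X, Y.erase b) (by
      rw [Finset.mem_product, Finset.mem_powerset, Finset.mem_powerset]
      exact ⟨hXY.1, (Finset.erase_subset _ _).trans hXY.2⟩)
    have h12 : EE r X Y = (X.filter (fun a => r a b)).card + EE r X (Y.erase b) := by
      rw [EE_right, EE_right]
      exact (Finset.add_sum_erase Y (fun b => (X.filter (fun a => r a b)).card) hb).symm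
    have h13 := Finset.card_erase_add_one hb
    simp only [f] at h11
    have h12' : (EE r X Y : ℤ) = (X.filter (fun a => r a b)).card + EE r X (Y.erase b) := by
      exact_mod_cast h12
    have h13' : ((Y.erase b).card : ℤ) + 1 = Y.card := by exact_mod_cast h13
    zify
    nlinarith

/-- number of bad tuples in the neighbourhood of b -/
noncomputable def bad (r : A → B → Prop) (q L : ℕ) (b : B) : ℕ :=
  ((Finset.univ : Finset (Fin q → A)).filter (fun Q => (∀ i, r (Q i) b) ∧
    ¬ (Function.Injective Q ∧ L ≤ codeg r Q))).card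

theorem bad_sum (r : A → B → Prop) (q L M : ℕ) (hM : ∀ b, deg2 r b ≤ M) :
    ∑ b : B, bad r q L b ≤ Fintype.card B * (q ^ 2 * M ^ (q - 1)) + Fintype.card A ^ q * L := by
  have h1 : ∀ b : B, bad r q L b ≤ (q ^ 2 * M ^ (q - 1)) +
      ((Finset.univ : Finset (Fin q → A)).filter
        (fun Q => (∀ i, r (Q i) b) ∧ codeg r Q < L)).card := by
    intro b
    have h2 : (Finset.univ : Finset (Fin q → A)).filter (fun Q => (∀ i, r (Q i) b) ∧
        ¬ (Function.Injective Q ∧ L ≤ codeg r Q)) ⊆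
        ((Fintype.piFinset (fun _ : Fin q => Finset.univ.filter (fun a => r a b))).filter
          (fun f => ¬ Function.Injective f)) ∪ ((Finset.univ : Finset (Fin q → A)).filter
        (fun Q => (∀ i, r (Q i) b) ∧ codeg r Q < L)) := by
      intro Q hQ
      simp only [Finset.mem_filter, Finset.mem_univ, true_and] at hQ
      simp only [Finset.mem_union, Finset.mem_filter, Fintype.mem_piFinset, Finset.mem_univ,
        true_and]
      by_cases hi : Function.Injective Q
      · right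
        refine ⟨hQ.1, ?_⟩
        by_contra hcon
        exact hQ.2 ⟨hi, not_lt.mp hcon⟩
      · left
        exact ⟨hQ.1, hi⟩
    refine (Finset.card_le_card h2).trans ((Finset.card_union_le _ _).trans ?_)
    apply Nat.add_le_add_right
    have := card_noninj (fun _ : Fin q => Finset.univ.filter (fun a => r a b)) M (fun _ => hM b)
    simpa using this
  refine (Finset.sum_le_sum (fun b _ => h1 b)).trans ?_
  rw [Finset.sum_add_distrib, Finset.sum_const, Finset.card_univ, smul_eq_mul]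
  apply Nat.add_le_add_left
  have h3 : ∑ b : B, ((Finset.univ : Finset (Fin q → A)).filter
        (fun Q => (∀ i, r (Q i) b) ∧ codeg r Q < L)).card =
      ∑ Q : Fin q → A, ((Finset.univ : Finset B).filter
        (fun b => (∀ i, r (Q i) b) ∧ codeg r Q < L)).card := by
    simp only [Finset.card_filter]
    rw [Finset.sum_comm]
  rw [h3]
  have h4 : ∀ Q ∈ (Finset.univ : Finset (Fin q → A)), ((Finset.univ : Finset B).filter
        (fun b => (∀ i, r (Q i) b) ∧ codeg r Q < L)).card ≤ L := by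
    intro Q _
    by_cases h : codeg r Q < L
    · refine le_trans (Finset.card_le_card ?_) h.le
      intro b hb
      rw [Finset.mem_filter] at hb ⊢
      exact ⟨hb.1, hb.2.1⟩
    · simp [h]
  refine (Finset.sum_le_card_nsmul _ _ _ h4).trans ?_
  rw [Finset.card_univ, smul_eq_mul, Fintype.card_fun, Fintype.card_fin]

/-- heavy injective tuples inside X -/
noncomputable def HH (r : A → B → Prop) (q L : ℕ) (X : Finset A) : Finset (Fin q → A) :=
  Finset.univ.filter (fun Q => Function.Injective Q ∧ (∀ i, Q i ∈ X) ∧ L ≤ codeg r Q)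

theorem many_heavy (r : A → B → Prop) (q L D : ℕ) (X : Finset A) (b : B)
    (hb : D ≤ 4 * (X.filter (fun a => r a b)).card)
    (hbad : (bad r q L b : ℝ) ≤ 1 / (2 * 4 ^ q) * (D : ℝ) ^ q) :
    1 / (2 * 4 ^ q) * (D : ℝ) ^ q ≤
      (((HH r q L X).filter (fun p => ∀ i, r (p i) b)).card : ℝ) := by
  have h1 : (X.filter (fun a => r a b)).card ^ q ≤
      ((HH r q L X).filter (fun p => ∀ i, r (p i) b)).card + bad r q L b := by
    have h2 : Fintype.piFinset (fun _ : Fin q => X.filter (fun a => r a b)) ⊆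
        ((HH r q L X).filter (fun p => ∀ i, r (p i) b)) ∪
        ((Finset.univ : Finset (Fin q → A)).filter (fun Q => (∀ i, r (Q i) b) ∧
          ¬ (Function.Injective Q ∧ L ≤ codeg r Q))) := by
      intro Q hQ
      simp only [Fintype.mem_piFinset, Finset.mem_filter] at hQ
      simp only [HH, Finset.mem_union, Finset.mem_filter, Finset.mem_univ, true_and]
      by_cases h : Function.Injective Q ∧ L ≤ codeg r Q
      · left; exact ⟨⟨h.1, fun i => (hQ i).1, h.2⟩, fun i => (hQ i).2⟩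
      · right; exact ⟨fun i => (hQ i).2, h⟩
    have h3 := (Finset.card_le_card h2).trans (Finset.card_union_le _ _)
    rw [Fintype.card_piFinset] at h3
    simpa [bad] using h3
  have h4 : ((D : ℝ) / 4) ^ q ≤ ((X.filter (fun a => r a b)).card : ℝ) ^ q := by
    apply pow_le_pow_left₀ (by positivity)
    have : (D : ℝ) ≤ 4 * (X.filter (fun a => r a b)).card := by exact_mod_cast hb
    linarith
  have h5 : ((X.filter (fun a => r a b)).card : ℝ) ^ q ≤
      (((HH r q L X).filter (fun p => ∀ i, r (p i) b)).card : ℝ) + bad r q L b := by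
    exact_mod_cast h1
  have h6 : ((D : ℝ) / 4) ^ q = 2 * (1 / (2 * 4 ^ q) * (D : ℝ) ^ q) := by
    rw [div_pow]; field_simp
  linarith

theorem few_bad (r : A → B → Prop) (q L M : ℕ) (δ : ℝ) (hM : ∀ b, deg2 r b ≤ M) :
    (((Finset.univ : Finset B).filter (fun b => δ < (bad r q L b : ℝ))).card : ℝ) * δ ≤
      Fintype.card B * (q ^ 2 * M ^ (q - 1)) + Fintype.card A ^ q * L := by
  have h1 : (((Finset.univ : Finset B).filter (fun b => δ < (bad r q L b : ℝ))).card : ℝ) * δ ≤
      ∑ b ∈ (Finset.univ : Finset B).filter (fun b => δ < (bad r q L b : ℝ)),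
        (bad r q L b : ℝ) := by
    have := Finset.card_nsmul_le_sum ((Finset.univ : Finset B).filter
      (fun b => δ < (bad r q L b : ℝ))) (fun b => (bad r q L b : ℝ)) δ (by
        intro b hb
        rw [Finset.mem_filter] at hb
        exact hb.2.le)
    rwa [nsmul_eq_mul] at this
  refine h1.trans ?_
  have h2 : ∑ b ∈ (Finset.univ : Finset B).filter (fun b => δ < (bad r q L b : ℝ)),
        (bad r q L b : ℝ) ≤ ∑ b : B, (bad r q L b : ℝ) :=
    Finset.sum_le_sum_of_subset_of_nonneg (Finset.filter_subset _ _) (fun _ _ _ => by positivity)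
  refine h2.trans ?_
  have := bad_sum r q L M hM
  exact_mod_cast this

/-- the integer case of the Bukh-Conlon conjecture for stars, almost regular bipartite graphs -/
theorem int_case (s s' t K : ℕ) (hs : 1 ≤ s) (ht : 0 < t) (hK : 0 < K) :
    ∃ C : ℝ, 0 < C ∧ ∀ (A B : Type) [Fintype A] [Fintype B] [Nonempty A] (r : A → B → Prop) (D : ℕ),
    Reg r D K → C ≤ (D : ℝ) →
    C * ((Fintype.card A + Fintype.card B : ℕ) : ℝ) ^ (s + s' - 1) ≤ (D : ℝ) ^ (s + s') →
    Blow r s (s + s') s' t ∨ Blow (fun b a => r a b) s (s + s') s' t := by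
  set q := s + s' with hq
  let δ : ℝ := 1 / (2 * 4 ^ q)
  have hδ : 0 < δ := by positivity
  obtain ⟨C1, hC1, hcore⟩ := core s s' t K δ hs ht hδ
  let L := t + s * (s + s')
  let C2 : ℝ := 8 * K * (q ^ 2 * K ^ (q - 1) + 2 * L) / δ + 1
  have hC2 : 0 < C2 := by positivity
  refine ⟨max C1 C2, lt_max_of_lt_left hC1, ?_⟩
  intro A B _ _ _ r D hr hCD hCn
  have hCD1 : C1 ≤ (D : ℝ) := (le_max_left _ _).trans hCD
  have hCD2 : C2 ≤ (D : ℝ) := (le_max_right _ _).trans hCD
  have hDpos : (0 : ℝ) < D := lt_of_lt_of_le hC1 hCD1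
  have hD0 : 0 < D := by exact_mod_cast hDpos
  set n : ℝ := ((Fintype.card A + Fintype.card B : ℕ) : ℝ) with hn
  have hn1 : (Fintype.card A : ℝ) ≤ n := by rw [hn]; push_cast; linarith [Nat.cast_nonneg (α := ℝ) (Fintype.card B)]
  have hn2 : (Fintype.card B : ℝ) ≤ n := by rw [hn]; push_cast; linarith [Nat.cast_nonneg (α := ℝ) (Fintype.card A)]
  have hn3 : (Fintype.card A : ℝ) + Fintype.card B = n := by rw [hn]; push_cast; ring
  have hA : 0 < Fintype.card A := Fintype.card_pos
  have hnpos : 0 < n := lt_of_lt_of_le (by exact_mod_cast hA) hn1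
  have hCn2 : C2 * n ^ (q - 1) ≤ (D : ℝ) ^ q :=
    le_trans (by gcongr; exact le_max_right _ _) hCn
  have hCn1 : C1 * n ^ (q - 1) ≤ (D : ℝ) ^ q :=
    le_trans (by gcongr; exact le_max_left _ _) hCn
  let WB : Finset B := (Finset.univ : Finset B).filter (fun b => δ * (D : ℝ) ^ q < (bad r q L b : ℝ))
  let WA : Finset A := (Finset.univ : Finset A).filter
    (fun a => δ * (D : ℝ) ^ q < (bad (fun b a => r a b) q L a : ℝ))
  have hq1 : 1 ≤ q := by omega
  have hWB : (WB.card : ℝ) * (δ * (D : ℝ) ^ q) ≤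
      Fintype.card B * (q ^ 2 * (K * D) ^ (q - 1)) + Fintype.card A ^ q * L := by
    have := few_bad r q L (K * D) (δ * (D : ℝ) ^ q) hr.ub
    push_cast at this
    exact this
  have hWA : (WA.card : ℝ) * (δ * (D : ℝ) ^ q) ≤
      Fintype.card A * (q ^ 2 * (K * D) ^ (q - 1)) + Fintype.card B ^ q * L := by
    have := few_bad (fun b a => r a b) q L (K * D) (δ * (D : ℝ) ^ q) hr.ua
    push_cast at this
    exact this
  have hnq : n ^ q = n * n ^ (q - 1) := by
    rw [← pow_succ']; congr 1; omega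
  have hdq : (D : ℝ) ^ q = D * (D : ℝ) ^ (q - 1) := by
    rw [← pow_succ']; congr 1; omega
  have hAq : (Fintype.card A : ℝ) ^ q ≤ n ^ q := pow_le_pow_left₀ (by positivity) hn1 q
  have hBq : (Fintype.card B : ℝ) ^ q ≤ n ^ q := pow_le_pow_left₀ (by positivity) hn2 q
  have hW1 : ((WA.card : ℝ) + WB.card) * (δ * (D : ℝ) ^ q) ≤
      n * (q ^ 2 * K ^ (q - 1) * D ^ (q - 1)) + 2 * (n * n ^ (q - 1)) * L := by
    have e1 : ((K : ℝ) * D) ^ (q - 1) = K ^ (q - 1) * D ^ (q - 1) := mul_pow _ _ _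
    rw [e1] at hWB hWA
    rw [← hnq]
    have hL : (0 : ℝ) ≤ L := by positivity
    have h1 := mul_le_mul_of_nonneg_right hAq hL
    have h2 := mul_le_mul_of_nonneg_right hBq hL
    calc ((WA.card : ℝ) + WB.card) * (δ * (D : ℝ) ^ q) =
        (WA.card : ℝ) * (δ * (D : ℝ) ^ q) + WB.card * (δ * (D : ℝ) ^ q) := by ring
      _ ≤ (Fintype.card A * (q ^ 2 * (K ^ (q - 1) * D ^ (q - 1))) + Fintype.card B ^ q * L) +
          (Fintype.card B * (q ^ 2 * (K ^ (q - 1) * D ^ (q - 1))) + Fintype.card A ^ q * L) := by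
            linarith
      _ ≤ (Fintype.card A * (q ^ 2 * (K ^ (q - 1) * D ^ (q - 1))) + n ^ q * L) +
          (Fintype.card B * (q ^ 2 * (K ^ (q - 1) * D ^ (q - 1))) + n ^ q * L) := by linarith
      _ = _ := by rw [← hn3]; ring
  have hW2 : C2 * (((WA.card : ℝ) + WB.card) * δ) ≤ n * (q ^ 2 * K ^ (q - 1) + 2 * L) := by
    have h1 : C2 * (((WA.card : ℝ) + WB.card) * (δ * (D : ℝ) ^ q)) ≤
        (n * (q ^ 2 * K ^ (q - 1) + 2 * L)) * (D : ℝ) ^ q := by
      calc C2 * (((WA.card : ℝ) + WB.card) * (δ * (D : ℝ) ^ q)) ≤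
          C2 * (n * (q ^ 2 * K ^ (q - 1) * D ^ (q - 1)) + 2 * (n * n ^ (q - 1)) * L) := by gcongr
        _ = n * (q ^ 2 * K ^ (q - 1)) * (C2 * D ^ (q - 1)) +
            2 * n * L * (C2 * n ^ (q - 1)) := by ring
        _ ≤ n * (q ^ 2 * K ^ (q - 1)) * (D * D ^ (q - 1)) + 2 * n * L * (D : ℝ) ^ q := by gcongr
        _ = _ := by rw [← hdq]; ring
    have h2 : C2 * (((WA.card : ℝ) + WB.card) * (δ * (D : ℝ) ^ q)) =
        (C2 * (((WA.card : ℝ) + WB.card) * δ)) * (D : ℝ) ^ q := by ring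
    rw [h2] at h1
    exact le_of_mul_le_mul_right h1 (by positivity)
  have hW3 : 8 * K * (WA.card + WB.card) < Fintype.card A + Fintype.card B := by
    have h1 : (8 * K * (WA.card + WB.card) : ℝ) < n := by
      by_contra hcon
      push Not at hcon
      have h3 : C2 * δ * n ≤ 8 * K * (n * (q ^ 2 * K ^ (q - 1) + 2 * L)) := by
        calc C2 * δ * n ≤ C2 * δ * (8 * K * (WA.card + WB.card)) := by gcongr
          _ = 8 * K * (C2 * (((WA.card : ℝ) + WB.card) * δ)) := by ring
          _ ≤ 8 * K * (n * (q ^ 2 * K ^ (q - 1) + 2 * L)) := by gcongr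
      have h4 : C2 * δ = 8 * K * (q ^ 2 * K ^ (q - 1) + 2 * L) + δ := by
        simp only [C2]; field_simp
      rw [h4] at h3
      have : 0 < δ * n := by positivity
      nlinarith
    rw [hn] at h1
    exact_mod_cast h1
  obtain ⟨X, Y, hXne, hYne, hXW, hYW, hXd, hYd⟩ := clean r D K hD0 hr WA WB hW3
  have hY' : ∀ b ∈ Y, δ * (D : ℝ) ^ q ≤
      (((HH r q L X).filter (fun p => ∀ i, r (p i) b)).card : ℝ) := by
    intro b hb
    apply many_heavy r q L D X b (hYd b hb)
    have := hYW b hb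
    simp only [WB, Finset.mem_filter, Finset.mem_univ, true_and, not_lt] at this
    exact this
  have hX' : ∀ a ∈ X, δ * (D : ℝ) ^ q ≤
      (((HH (fun b a => r a b) q L Y).filter (fun p => ∀ i, r a (p i))).card : ℝ) := by
    intro a ha
    apply many_heavy (fun b a => r a b) q L D Y a (hXd a ha)
    have := hXW a ha
    simp only [WA, Finset.mem_filter, Finset.mem_univ, true_and, not_lt] at this
    exact this
  have hδD : 0 < δ * (D : ℝ) ^ q := by positivity
  have hne1 : (HH r q L X).Nonempty := by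
    obtain ⟨b, hb⟩ := hYne
    have h1 := lt_of_lt_of_le hδD (hY' b hb)
    have h2 : 0 < ((HH r q L X).filter (fun p => ∀ i, r (p i) b)).card := by exact_mod_cast h1
    obtain ⟨Q, hQ⟩ := Finset.card_pos.mp h2
    exact ⟨Q, (Finset.mem_filter.mp hQ).1⟩
  have hne2 : (HH (fun b a => r a b) q L Y).Nonempty := by
    obtain ⟨a, ha⟩ := hXne
    have h1 := lt_of_lt_of_le hδD (hX' a ha)
    have h2 : 0 < ((HH (fun b a => r a b) q L Y).filter (fun p => ∀ i, r a (p i))).card := by
      exact_mod_cast h1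
    obtain ⟨Q, hQ⟩ := Finset.card_pos.mp h2
    exact ⟨Q, (Finset.mem_filter.mp hQ).1⟩
  have hBn : C1 * (Fintype.card B : ℝ) ^ (q - 1) ≤ (D : ℝ) ^ q :=
    le_trans (by gcongr) hCn1
  have hAn : C1 * (Fintype.card A : ℝ) ^ (q - 1) ≤ (D : ℝ) ^ q :=
    le_trans (by gcongr) hCn1
  rcases le_total (HH r q L X).card (HH (fun b a => r a b) q L Y).card with hle | hle
  · left
    apply hcore A B r D Y (HH r q L X) (HH (fun b a => r a b) q L Y) _ hY' hr.ub hne2 hle hCD1 hBn
    intro Q hQ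
    simp only [HH, Finset.mem_filter, Finset.mem_univ, true_and] at hQ
    exact hQ
  · right
    apply hcore B A (fun b a => r a b) D X (HH (fun b a => r a b) q L Y) (HH r q L X) _ hX' hr.ua
      hne1 hle hCD1 hAn
    intro Q hQ
    simp only [HH, Finset.mem_filter, Finset.mem_univ, true_and] at hQ
    exact hQ

end Pool.Agent.W590.BCI
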