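import Pool.Agent.W590.BC.Int

set_option autoImplicit false
set_option linter.unusedSectionVars false
set_option linter.unusedVariables false

open Classical Finset

namespace Pool.Agent.W590.BCI

open Pool.Agent.W715.BC

variable {A B : Type} [Fintype A] [Fintype B]

/-- a subgraph of large minimum degree that avoids few bad vertices -/
theorem clean2 (r : A → B → Prop) (D K E0 : ℕ) (hD : 0 < D) (hu1 : ∀ a, deg1 r a ≤ K * D)
    (hu2 : ∀ b, deg2 r b ≤ K * D)
    (he : 2 * D * (Fintype.card A + Fintype.card B) ≤ 4 * EE r Finset.univ Finset.univ + E0)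
    (WA : Finset A) (WB : Finset B)
    (hW : E0 + 4 * K * D * (WA.card + WB.card) < D * (Fintype.card A + Fintype.card B)) :
    ∃ (X : Finset A) (Y : Finset B), X.Nonempty ∧ Y.Nonempty ∧ (∀ a ∈ X, a ∉ WA) ∧
      (∀ b ∈ Y, b ∉ WB) ∧ (∀ a ∈ X, D ≤ 4 * (Y.filter (fun b => r a b)).card) ∧
      (∀ b ∈ Y, D ≤ 4 * (X.filter (fun a => r a b)).card) := by
  let f : Finset A × Finset B → ℤ := fun z => 4 * (EE r z.1 z.2 : ℤ) - D * (z.1.card + z.2.card)
  obtain ⟨⟨X, Y⟩, hXY, hmax⟩ := Finset.exists_max_image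
    ((Finset.univ \ WA).powerset ×ˢ (Finset.univ \ WB).powerset) f
    ⟨(∅, ∅), by simp⟩
  rw [Finset.mem_product, Finset.mem_powerset, Finset.mem_powerset] at hXY
  simp only at hXY
  have hX : ∀ a ∈ X, a ∉ WA := fun a ha => (Finset.mem_sdiff.mp (hXY.1 ha)).2
  have hY : ∀ b ∈ Y, b ∉ WB := fun b hb => (Finset.mem_sdiff.mp (hXY.2 hb)).2
  -- the value at the whole set
  have h0 : EE r Finset.univ Finset.univ ≤ EE r (Finset.univ \ WA) (Finset.univ \ WB) +
      (WA.card + WB.card) * (K * D) := by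
    have h1 : ((Finset.univ : Finset A) ×ˢ (Finset.univ : Finset B)).filter (fun z => r z.1 z.2) ⊆
        (((Finset.univ \ WA) ×ˢ (Finset.univ \ WB)).filter (fun z => r z.1 z.2)) ∪
        ((WA ×ˢ (Finset.univ : Finset B)).filter (fun z => r z.1 z.2) ∪
        ((Finset.univ : Finset A) ×ˢ WB).filter (fun z => r z.1 z.2)) := by
      intro z hz
      rw [Finset.mem_filter] at hz
      simp only [Finset.mem_union, Finset.mem_filter, Finset.mem_product, Finset.mem_sdiff,
        Finset.mem_univ, true_and, and_true]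
      have := hz.2
      tauto
    have h2 := (Finset.card_le_card h1).trans ((Finset.card_union_le _ _).trans
      (Nat.add_le_add_left (Finset.card_union_le _ _) _))
    have h3 : ((WA ×ˢ (Finset.univ : Finset B)).filter (fun z => r z.1 z.2)).card ≤
        WA.card * (K * D) := by
      have := EE_left r WA Finset.univ
      rw [EE] at this
      rw [this]
      exact (Finset.sum_le_card_nsmul _ _ _ (fun a _ => hu1 a)).trans (le_of_eq (by simp))
    have h4 : (((Finset.univ : Finset A) ×ˢ WB).filter (fun z => r z.1 z.2)).card ≤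
        WB.card * (K * D) := by
      have := EE_right r Finset.univ WB
      rw [EE] at this
      rw [this]
      exact (Finset.sum_le_card_nsmul _ _ _ (fun a _ => hu2 a)).trans (le_of_eq (by simp))
    rw [EE, EE]
    rw [Nat.add_mul]
    omega
  have hpos : 0 < f (Finset.univ \ WA, Finset.univ \ WB) := by
    have h7 : (Finset.univ \ WA).card ≤ Fintype.card A := Finset.card_le_univ _
    have h8 : (Finset.univ \ WB).card ≤ Fintype.card B := Finset.card_le_univ _
    have h10 : D * ((Finset.univ \ WA).card + (Finset.univ \ WB).card) ≤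
        D * (Fintype.card A + Fintype.card B) := Nat.mul_le_mul_left _ (by omega)
    simp only [f]
    have h0' : (EE r Finset.univ Finset.univ : ℤ) ≤ EE r (Finset.univ \ WA) (Finset.univ \ WB) +
      (WA.card + WB.card) * (K * D) := by exact_mod_cast h0
    have h5' : 2 * (D : ℤ) * (Fintype.card A + Fintype.card B) ≤
      4 * EE r Finset.univ Finset.univ + E0 := by exact_mod_cast he
    have h9' : (E0 : ℤ) + 4 * K * D * (WA.card + WB.card) < D * (Fintype.card A + Fintype.card B) := by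
      exact_mod_cast hW
    have h10' : (D : ℤ) * ((Finset.univ \ WA).card + (Finset.univ \ WB).card) ≤
        D * (Fintype.card A + Fintype.card B) := by exact_mod_cast h10
    nlinarith
  have hval : 0 < f (X, Y) := lt_of_lt_of_le hpos (hmax _ (by simp))
  have hEE : 0 < EE r X Y := by
    by_contra hcon
    have : EE r X Y = 0 := by omega
    simp only [f, this] at hval
    have : (0 : ℤ) ≤ D * (X.card + Y.card) := by positivity
    simp at hval
    linarith
  have hXne : X.Nonempty := by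
    rw [Finset.nonempty_iff_ne_empty]; rintro rfl; simp [EE] at hEE
  have hYne : Y.Nonempty := by
    rw [Finset.nonempty_iff_ne_empty]; rintro rfl; simp [EE] at hEE
  refine ⟨X, Y, hXne, hYne, hX, hY, ?_, ?_⟩
  · intro a ha
    have h11 := hmax (X.erase a, Y) (by
      rw [Finset.mem_product, Finset.mem_powerset, Finset.mem_powerset]
      exact ⟨(Finset.erase_subset _ _).trans hXY.1, hXY.2⟩)
    have h12 : EE r X Y = (Y.filter (fun b => r a b)).card + EE r (X.erase a) Y := by
      rw [EE_left, EE_left]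
      exact (Finset.add_sum_erase X (fun a => (Y.filter (fun b => r a b)).card) ha).symm
    have h13 := Finset.card_erase_add_one ha
    simp only [f] at h11
    have h12' : (EE r X Y : ℤ) = (Y.filter (fun b => r a b)).card + EE r (X.erase a) Y := by
      exact_mod_cast h12
    have h13' : ((X.erase a).card : ℤ) + 1 = X.card := by exact_mod_cast h13
    zify
    nlinarith
  · intro b hb
    have h11 := hmax (X, Y.erase b) (by
      rw [Finset.mem_product, Finset.mem_powerset, Finset.mem_powerset]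
      exact ⟨hXY.1, (Finset.erase_subset _ _).trans hXY.2⟩)
    have h12 : EE r X Y = (X.filter (fun a => r a b)).card + EE r X (Y.erase b) := by
      rw [EE_right, EE_right]
      exact (Finset.add_sum_erase Y (fun b => (X.filter (fun a => r a b)).card) hb).symm
    have h13 := Finset.card_erase_add_one hb
    simp only [f] at h11
    have h12' : (EE r X Y : ℤ) = (X.filter (fun a => r a b)).card + EE r X (Y.erase b) := by
      exact_mod_cast h12
    have h13' : ((Y.erase b).card : ℤ) + 1 = Y.card := by exact_mod_cast h13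
    zify
    nlinarith

/-- the case without children with only root neighbours -/
theorem core0 (r : A → B → Prop) (s' t : ℕ) (Q : Fin (0 + s') → B) (hQ : Function.Injective Q)
    (hc : t ≤ codeg (fun b a => r a b) Q) : Blow r 0 (0 + s') s' t := by
  obtain ⟨c, hc1, hc2⟩ := sdr (t := t) (fun _ : Fin t =>
    Finset.univ.filter (fun a : A => ∀ l, r a (Q l))) (fun j => hc)
  refine ⟨c, fun i => Fin.elim0 i, fun i => Fin.elim0 i, fun l => Q (Fin.natAdd 0 l), hc1,
    fun x => Fin.elim0 x.1, fun x => Fin.elim0 x.1, ?_, fun j i => Fin.elim0 i,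
    fun i => Fin.elim0 i, fun i => Fin.elim0 i, ?_, fun i => Fin.elim0 i⟩
  · intro l l' h
    exact Fin.natAdd_injective _ _ (hQ h)
  · intro j l
    exact (Finset.mem_filter.mp (hc2 j)).2 _

/-- the integer case for a subgraph with few edges removed -/
theorem int_case2 (s s' t K : ℕ) (hq : 1 ≤ s + s') (ht : 0 < t) (hK : 0 < K) :
    ∃ C : ℝ, 0 < C ∧ ∀ (A B : Type) [Fintype A] [Fintype B] [Nonempty A] (r : A → B → Prop)
    (D E0 : ℕ), (∀ a, deg1 r a ≤ K * D) → (∀ b, deg2 r b ≤ K * D) →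
    2 * D * (Fintype.card A + Fintype.card B) ≤ 4 * EE r Finset.univ Finset.univ + E0 →
    2 * E0 ≤ D * (Fintype.card A + Fintype.card B) → C ≤ (D : ℝ) →
    C * ((Fintype.card A + Fintype.card B : ℕ) : ℝ) ^ (s + s' - 1) ≤ (D : ℝ) ^ (s + s') →
    Blow r s (s + s') s' t ∨ Blow (fun b a => r a b) s (s + s') s' t := by
  set q := s + s' with hqdef
  let δ : ℝ := 1 / (2 * 4 ^ q)
  have hδ : 0 < δ := by positivity
  obtain ⟨C1, hC1, hcore⟩ : ∃ C : ℝ, 0 < C ∧ (1 ≤ s → ∀ (A B : Type) [Fintype A] [Fintype B]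
      (r : A → B → Prop) (D : ℕ)
      (Y : Finset B) (H1 : Finset (Fin (s + s') → A)) (H2 : Finset (Fin (s + s') → B)),
      (∀ Q ∈ H2, Function.Injective Q ∧ (∀ i, Q i ∈ Y) ∧
        t + s * (s + s') ≤ codeg (fun b a => r a b) Q) →
      (∀ b ∈ Y, δ * (D : ℝ) ^ (s + s') ≤ ((H1.filter (fun p => ∀ i, r (p i) b)).card : ℝ)) →
      (∀ b, deg2 r b ≤ K * D) → H2.Nonempty → H1.card ≤ H2.card →
      C ≤ (D : ℝ) → C * (Fintype.card B : ℝ) ^ (s + s' - 1) ≤ (D : ℝ) ^ (s + s') →
      Blow r s (s + s') s' t) := by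
    by_cases hs : 1 ≤ s
    · obtain ⟨C, h1, h2⟩ := core s s' t K δ hs ht hδ
      exact ⟨C, h1, fun _ => h2⟩
    · exact ⟨1, one_pos, fun h => absurd h hs⟩
  let L := t + s * (s + s')
  let C2 : ℝ := 8 * K * (q ^ 2 * K ^ (q - 1) + 2 * L) / δ + 1
  have hC2 : 0 < C2 := by positivity
  refine ⟨max C1 C2, lt_max_of_lt_left hC1, ?_⟩
  intro A B _ _ _ r D E0 hu1 hu2 hE1 hE2 hCD hCn
  have hCD1 : C1 ≤ (D : ℝ) := (le_max_left _ _).trans hCD
  have hCD2 : C2 ≤ (D : ℝ) := (le_max_right _ _).trans hCD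
  have hDpos : (0 : ℝ) < D := lt_of_lt_of_le hC1 hCD1
  have hD0 : 0 < D := by exact_mod_cast hDpos
  set n : ℝ := ((Fintype.card A + Fintype.card B : ℕ) : ℝ) with hn
  have hn1 : (Fintype.card A : ℝ) ≤ n := by rw [hn]; push_cast; linarith [Nat.cast_nonneg (α := ℝ) (Fintype.card B)]
  have hn2 : (Fintype.card B : ℝ) ≤ n := by rw [hn]; push_cast; linarith [Nat.cast_nonneg (α := ℝ) (Fintype.card A)]
  have hn3 : (Fintype.card A : ℝ) + Fintype.card B = n := by rw [hn]; push_cast; ring
  have hA : 0 < Fintype.card A := Fintype.card_pos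
  have hnpos : 0 < n := lt_of_lt_of_le (by exact_mod_cast hA) hn1
  have hCn2 : C2 * n ^ (q - 1) ≤ (D : ℝ) ^ q :=
    le_trans (by gcongr; exact le_max_right _ _) hCn
  have hCn1 : C1 * n ^ (q - 1) ≤ (D : ℝ) ^ q :=
    le_trans (by gcongr; exact le_max_left _ _) hCn
  let WB : Finset B := (Finset.univ : Finset B).filter (fun b => δ * (D : ℝ) ^ q < (bad r q L b : ℝ))
  let WA : Finset A := (Finset.univ : Finset A).filter
    (fun a => δ * (D : ℝ) ^ q < (bad (fun b a => r a b) q L a : ℝ))
  have hWB : (WB.card : ℝ) * (δ * (D : ℝ) ^ q) ≤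
      Fintype.card B * (q ^ 2 * (K * D) ^ (q - 1)) + Fintype.card A ^ q * L := by
    have := few_bad r q L (K * D) (δ * (D : ℝ) ^ q) hu2
    push_cast at this
    exact this
  have hWA : (WA.card : ℝ) * (δ * (D : ℝ) ^ q) ≤
      Fintype.card A * (q ^ 2 * (K * D) ^ (q - 1)) + Fintype.card B ^ q * L := by
    have := few_bad (fun b a => r a b) q L (K * D) (δ * (D : ℝ) ^ q) hu1
    push_cast at this
    exact this
  have hnq : n ^ q = n * n ^ (q - 1) := by
    rw [← pow_succ']; congr 1; omega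
  have hdq : (D : ℝ) ^ q = D * (D : ℝ) ^ (q - 1) := by
    rw [← pow_succ']; congr 1; omega
  have hAq : (Fintype.card A : ℝ) ^ q ≤ n ^ q := pow_le_pow_left₀ (by positivity) hn1 q
  have hBq : (Fintype.card B : ℝ) ^ q ≤ n ^ q := pow_le_pow_left₀ (by positivity) hn2 q
  have hW1 : ((WA.card : ℝ) + WB.card) * (δ * (D : ℝ) ^ q) ≤
      n * (q ^ 2 * K ^ (q - 1) * D ^ (q - 1)) + 2 * (n * n ^ (q - 1)) * L := by
    have e1 : ((K : ℝ) * D) ^ (q - 1) = K ^ (q - 1) * D ^ (q - 1) := mul_pow _ _ _
    rw [e1] at hWB hWA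
    rw [← hnq]
    have hL : (0 : ℝ) ≤ L := by positivity
    have h1 := mul_le_mul_of_nonneg_right hAq hL
    have h2 := mul_le_mul_of_nonneg_right hBq hL
    calc ((WA.card : ℝ) + WB.card) * (δ * (D : ℝ) ^ q) =
        (WA.card : ℝ) * (δ * (D : ℝ) ^ q) + WB.card * (δ * (D : ℝ) ^ q) := by ring
      _ ≤ (Fintype.card A * (q ^ 2 * (K ^ (q - 1) * D ^ (q - 1))) + Fintype.card B ^ q * L) +
          (Fintype.card B * (q ^ 2 * (K ^ (q - 1) * D ^ (q - 1))) + Fintype.card A ^ q * L) := by
            linarith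
      _ ≤ (Fintype.card A * (q ^ 2 * (K ^ (q - 1) * D ^ (q - 1))) + n ^ q * L) +
          (Fintype.card B * (q ^ 2 * (K ^ (q - 1) * D ^ (q - 1))) + n ^ q * L) := by linarith
      _ = _ := by rw [← hn3]; ring
  have hW2 : C2 * (((WA.card : ℝ) + WB.card) * δ) ≤ n * (q ^ 2 * K ^ (q - 1) + 2 * L) := by
    have h1 : C2 * (((WA.card : ℝ) + WB.card) * (δ * (D : ℝ) ^ q)) ≤
        (n * (q ^ 2 * K ^ (q - 1) + 2 * L)) * (D : ℝ) ^ q := by
      calc C2 * (((WA.card : ℝ) + WB.card) * (δ * (D : ℝ) ^ q)) ≤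
          C2 * (n * (q ^ 2 * K ^ (q - 1) * D ^ (q - 1)) + 2 * (n * n ^ (q - 1)) * L) := by gcongr
        _ = n * (q ^ 2 * K ^ (q - 1)) * (C2 * D ^ (q - 1)) +
            2 * n * L * (C2 * n ^ (q - 1)) := by ring
        _ ≤ n * (q ^ 2 * K ^ (q - 1)) * (D * D ^ (q - 1)) + 2 * n * L * (D : ℝ) ^ q := by gcongr
        _ = _ := by rw [← hdq]; ring
    have h2 : C2 * (((WA.card : ℝ) + WB.card) * (δ * (D : ℝ) ^ q)) =
        (C2 * (((WA.card : ℝ) + WB.card) * δ)) * (D : ℝ) ^ q := by ring
    rw [h2] at h1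
    exact le_of_mul_le_mul_right h1 (by positivity)
  have hW3 : 8 * K * (WA.card + WB.card) < Fintype.card A + Fintype.card B := by
    have h1 : (8 * K * (WA.card + WB.card) : ℝ) < n := by
      by_contra hcon
      push Not at hcon
      have h3 : C2 * δ * n ≤ 8 * K * (n * (q ^ 2 * K ^ (q - 1) + 2 * L)) := by
        calc C2 * δ * n ≤ C2 * δ * (8 * K * (WA.card + WB.card)) := by gcongr
          _ = 8 * K * (C2 * (((WA.card : ℝ) + WB.card) * δ)) := by ring
          _ ≤ 8 * K * (n * (q ^ 2 * K ^ (q - 1) + 2 * L)) := by gcongr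
      have h4 : C2 * δ = 8 * K * (q ^ 2 * K ^ (q - 1) + 2 * L) + δ := by
        simp only [C2]; field_simp
      rw [h4] at h3
      have : 0 < δ * n := by positivity
      nlinarith
    rw [hn] at h1
    exact_mod_cast h1
  have hW4 : E0 + 4 * K * D * (WA.card + WB.card) < D * (Fintype.card A + Fintype.card B) := by
    have h1 : D * (8 * K * (WA.card + WB.card)) < D * (Fintype.card A + Fintype.card B) :=
      Nat.mul_lt_mul_of_pos_left hW3 hD0
    nlinarith
  obtain ⟨X, Y, hXne, hYne, hXW, hYW, hXd, hYd⟩ := clean2 r D K E0 hD0 hu1 hu2 hE1 WA WB hW4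
  have hY' : ∀ b ∈ Y, δ * (D : ℝ) ^ q ≤
      (((HH r q L X).filter (fun p => ∀ i, r (p i) b)).card : ℝ) := by
    intro b hb
    apply many_heavy r q L D X b (hYd b hb)
    have := hYW b hb
    simp only [WB, Finset.mem_filter, Finset.mem_univ, true_and, not_lt] at this
    exact this
  have hX' : ∀ a ∈ X, δ * (D : ℝ) ^ q ≤
      (((HH (fun b a => r a b) q L Y).filter (fun p => ∀ i, r a (p i))).card : ℝ) := by
    intro a ha
    apply many_heavy (fun b a => r a b) q L D Y a (hXd a ha)
    have := hXW a ha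
    simp only [WA, Finset.mem_filter, Finset.mem_univ, true_and, not_lt] at this
    exact this
  have hδD : 0 < δ * (D : ℝ) ^ q := by positivity
  have hne1 : (HH r q L X).Nonempty := by
    obtain ⟨b, hb⟩ := hYne
    have h1 := lt_of_lt_of_le hδD (hY' b hb)
    have h2 : 0 < ((HH r q L X).filter (fun p => ∀ i, r (p i) b)).card := by exact_mod_cast h1
    obtain ⟨Q, hQ⟩ := Finset.card_pos.mp h2
    exact ⟨Q, (Finset.mem_filter.mp hQ).1⟩
  have hne2 : (HH (fun b a => r a b) q L Y).Nonempty := by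
    obtain ⟨a, ha⟩ := hXne
    have h1 := lt_of_lt_of_le hδD (hX' a ha)
    have h2 : 0 < ((HH (fun b a => r a b) q L Y).filter (fun p => ∀ i, r a (p i))).card := by
      exact_mod_cast h1
    obtain ⟨Q, hQ⟩ := Finset.card_pos.mp h2
    exact ⟨Q, (Finset.mem_filter.mp hQ).1⟩
  have hBn : C1 * (Fintype.card B : ℝ) ^ (q - 1) ≤ (D : ℝ) ^ q :=
    le_trans (by gcongr) hCn1
  have hAn : C1 * (Fintype.card A : ℝ) ^ (q - 1) ≤ (D : ℝ) ^ q :=
    le_trans (by gcongr) hCn1
  by_cases hs : 1 ≤ s
  · rcases le_total (HH r q L X).card (HH (fun b a => r a b) q L Y).card with hle | hle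
    · left
      apply hcore hs A B r D Y (HH r q L X) (HH (fun b a => r a b) q L Y) _ hY' hu2 hne2 hle hCD1 hBn
      intro Q hQ
      simp only [HH, Finset.mem_filter, Finset.mem_univ, true_and] at hQ
      exact hQ
    · right
      apply hcore hs B A (fun b a => r a b) D X (HH (fun b a => r a b) q L Y) (HH r q L X) _ hX' hu1
        hne1 hle hCD1 hAn
      intro Q hQ
      simp only [HH, Finset.mem_filter, Finset.mem_univ, true_and] at hQ
      exact hQ
  · left
    obtain rfl : s = 0 := by omega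
    obtain ⟨Q, hQ⟩ := hne2
    simp only [HH, Finset.mem_filter, Finset.mem_univ, true_and] at hQ
    exact core0 r s' t Q hQ.1 (by have := hQ.2.2; simp only [L] at this; omega)

end Pool.Agent.W590.BCI
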