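import Pool.Agent.W590.BC.Ext
import Pool.Agent.W389.BC_TR2
import Pool.Agent.W237.BC_TR1

set_option autoImplicit false
set_option linter.unusedSectionVars false
set_option linter.unusedVariables false

open Classical

namespace Pool.Agent.W590.BCI

open Pool.Agent.W715.BC SimpleGraph

theorem mix_case (s s' k q0 t K : ℕ) (hq : s + s' = q0 + 1) (hq0 : 1 ≤ q0) (ht : 0 < t)
    (hK : 0 < K) (hs' : 1 ≤ s' ∨ k = 0) :
    ∃ C : ℝ, 0 < C ∧ ∀ (A B : Type) [Fintype A] [Fintype B] [Nonempty A] (r : A → B → Prop)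
    (D : ℕ), Reg r D K → C ≤ (D : ℝ) →
    C * ((Fintype.card A + Fintype.card B : ℕ) : ℝ) ^ q0 ≤ (D : ℝ) ^ (q0 + 1) →
    Blow2 r s k q0 s' t ∨ Blow2 (fun b a => r a b) s k q0 s' t := by
  obtain ⟨C1, hC1, hint⟩ := int_case2 s s' t K (by omega) ht hK
  let L := k * t + (s * t + s')
  let e : ℝ := 1 / (2 * t)
  have he : 0 < e := by positivity
  let C2 : ℝ := 8 * ((q0 + 1) ^ 2 * K ^ q0 + 2 * L) / e
  have hC2 : 0 < C2 := by
    have : 0 < (K : ℝ) := by exact_mod_cast hK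
    positivity
  let C3 : ℝ := 2 * q0 * ((t + s * (q0 + 1) + k * q0) * K ^ (q0 - 1)) + 1
  refine ⟨max C1 (max C2 C3), lt_max_of_lt_left hC1, ?_⟩
  intro A B _ _ _ r D hr hCD hCn
  have hCD1 : C1 ≤ (D : ℝ) := (le_max_left _ _).trans hCD
  have hCD2 : C2 ≤ (D : ℝ) := (le_max_left _ _).trans ((le_max_right _ _).trans hCD)
  have hCD3 : C3 ≤ (D : ℝ) := (le_max_right _ _).trans ((le_max_right _ _).trans hCD)
  have hDpos : (0 : ℝ) < D := lt_of_lt_of_le hC1 hCD1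
  have hD0 : 0 < D := by exact_mod_cast hDpos
  have hD3 : 2 * q0 * ((t + s * (q0 + 1) + k * q0) * K ^ (q0 - 1)) < D := by
    have h1 : (2 * q0 * ((t + s * (q0 + 1) + k * q0) * K ^ (q0 - 1)) : ℝ) + 1 ≤ D := hCD3
    have h2 : (2 * q0 * ((t + s * (q0 + 1) + k * q0) * K ^ (q0 - 1)) : ℝ) < D := by linarith
    exact_mod_cast h2
  set n : ℝ := ((Fintype.card A + Fintype.card B : ℕ) : ℝ) with hn
  have hn1 : (Fintype.card A : ℝ) ≤ n := by rw [hn]; push_cast; linarith [Nat.cast_nonneg (α := ℝ) (Fintype.card B)]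
  have hn2 : (Fintype.card B : ℝ) ≤ n := by rw [hn]; push_cast; linarith [Nat.cast_nonneg (α := ℝ) (Fintype.card A)]
  have hn3 : (Fintype.card A : ℝ) + Fintype.card B = n := by rw [hn]; push_cast; ring
  have hA : 0 < Fintype.card A := Fintype.card_pos
  have hnpos : 0 < n := lt_of_lt_of_le (by exact_mod_cast hA) hn1
  have hCn1 : C1 * n ^ (s + s' - 1) ≤ (D : ℝ) ^ (s + s') := by
    rw [hq, Nat.add_sub_cancel]
    exact le_trans (by gcongr; exact le_max_left _ _) hCn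
  have hCn2 : C2 * n ^ q0 ≤ (D : ℝ) ^ (q0 + 1) := by
    refine le_trans ?_ hCn
    gcongr
    exact (le_max_left _ _).trans (le_max_right _ _)
  -- the good edges
  obtain ⟨r', hr'⟩ : ∃ r' : A → B → Prop, ∀ a b, r' a b ↔ (r a b ∧
    (bet r q0 L a b : ℝ) ≤ e * (D : ℝ) ^ q0 ∧
    (bet (fun b a => r a b) q0 L b a : ℝ) ≤ e * (D : ℝ) ^ q0) := ⟨_, fun _ _ => Iff.rfl⟩
  obtain ⟨e1, he1'⟩ : ∃ e1 : A → B → Prop, ∀ a b, e1 a b ↔ (r a b ∧
    e * (D : ℝ) ^ q0 < (bet r q0 L a b : ℝ)) := ⟨_, fun _ _ => Iff.rfl⟩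
  obtain ⟨e2, he2'⟩ : ∃ e2 : B → A → Prop, ∀ b a, e2 b a ↔ (r a b ∧
    e * (D : ℝ) ^ q0 < (bet (fun b a => r a b) q0 L b a : ℝ)) := ⟨_, fun _ _ => Iff.rfl⟩
  have he1 := few_bad_edges r e1 q0 L (K * D) (e * (D : ℝ) ^ q0) hr.ub (fun a b => (he1' a b).1)
  have he2 := few_bad_edges (fun b a => r a b) e2 q0 L (K * D) (e * (D : ℝ) ^ q0) hr.ua
    (fun b a => (he2' b a).1)
  have hsum : EE r Finset.univ Finset.univ ≤ EE r' Finset.univ Finset.univ +
      (EE e1 Finset.univ Finset.univ + EE e2 Finset.univ Finset.univ) := by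
    have h1 : EE e2 Finset.univ Finset.univ =
        (((Finset.univ : Finset A) ×ˢ (Finset.univ : Finset B)).filter
          (fun z => e2 z.2 z.1)).card := by
      have h1' : EE e2 Finset.univ Finset.univ =
        EE (fun a b => e2 b a) Finset.univ Finset.univ := by
        rw [EE_left, EE_right]
      exact h1'
    rw [h1]
    have h2 : ((Finset.univ : Finset A) ×ˢ (Finset.univ : Finset B)).filter (fun z => r z.1 z.2) ⊆
        (((Finset.univ : Finset A) ×ˢ (Finset.univ : Finset B)).filter (fun z => r' z.1 z.2)) ∪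
        ((((Finset.univ : Finset A) ×ˢ (Finset.univ : Finset B)).filter (fun z => e1 z.1 z.2)) ∪
        (((Finset.univ : Finset A) ×ˢ (Finset.univ : Finset B)).filter (fun z => e2 z.2 z.1))) := by
      intro z hz
      simp only [Finset.mem_filter, Finset.mem_product, Finset.mem_univ, true_and,
        Finset.mem_union] at hz ⊢
      by_cases g1 : (bet r q0 L z.1 z.2 : ℝ) ≤ e * (D : ℝ) ^ q0
      · by_cases g2 : (bet (fun b a => r a b) q0 L z.2 z.1 : ℝ) ≤ e * (D : ℝ) ^ q0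
        · exact Or.inl ((hr' _ _).2 ⟨hz, g1, g2⟩)
        · exact Or.inr (Or.inr ((he2' _ _).2 ⟨hz, not_le.mp g2⟩))
      · exact Or.inr (Or.inl ((he1' _ _).2 ⟨hz, not_le.mp g1⟩))
    have h3 := (Finset.card_le_card h2).trans ((Finset.card_union_le _ _).trans
      (Nat.add_le_add_left (Finset.card_union_le _ _) _))
    exact h3
  have h5 : D * Fintype.card A ≤ EE r Finset.univ Finset.univ := by
    rw [EE_left]
    have := Finset.card_nsmul_le_sum (Finset.univ : Finset A)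
      (fun a => ((Finset.univ : Finset B).filter (fun b => r a b)).card) D (fun a _ => hr.la a)
    rw [Finset.card_univ, smul_eq_mul] at this
    rw [mul_comm]; exact this
  have h6 : D * Fintype.card B ≤ EE r Finset.univ Finset.univ := by
    rw [EE_right]
    have := Finset.card_nsmul_le_sum (Finset.univ : Finset B)
      (fun b => ((Finset.univ : Finset A).filter (fun a => r a b)).card) D (fun b _ => hr.lb b)
    rw [Finset.card_univ, smul_eq_mul] at this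
    rw [mul_comm]; exact this
  set E1 := EE e1 Finset.univ Finset.univ with hE1
  set E2 := EE e2 Finset.univ Finset.univ with hE2
  have hAq : (Fintype.card A : ℝ) ^ (q0 + 1) ≤ n ^ (q0 + 1) :=
    pow_le_pow_left₀ (by positivity) hn1 _
  have hBq : (Fintype.card B : ℝ) ^ (q0 + 1) ≤ n ^ (q0 + 1) :=
    pow_le_pow_left₀ (by positivity) hn2 _
  have hE : 8 * (E1 + E2) ≤ D * (Fintype.card A + Fintype.card B) := by
    have hL : (0 : ℝ) ≤ L := by positivity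
    have g1 := mul_le_mul_of_nonneg_right hAq hL
    have g2 := mul_le_mul_of_nonneg_right hBq hL
    push_cast at he1 he2
    have g3 : ((K : ℝ) * D) ^ q0 = K ^ q0 * D ^ q0 := mul_pow _ _ _
    rw [g3] at he1 he2
    have g4 : ((E1 : ℝ) + E2) * (e * (D : ℝ) ^ q0) ≤
        n * ((q0 + 1) ^ 2 * (K ^ q0 * D ^ q0)) + 2 * (n * n ^ q0) * L := by
      calc ((E1 : ℝ) + E2) * (e * (D : ℝ) ^ q0) =
          E1 * (e * (D : ℝ) ^ q0) + E2 * (e * (D : ℝ) ^ q0) := by ring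
        _ ≤ (Fintype.card B * ((q0 + 1) ^ 2 * (K ^ q0 * D ^ q0)) +
              Fintype.card A ^ (q0 + 1) * L) +
            (Fintype.card A * ((q0 + 1) ^ 2 * (K ^ q0 * D ^ q0)) +
              Fintype.card B ^ (q0 + 1) * L) := by linarith
        _ ≤ (Fintype.card B * ((q0 + 1) ^ 2 * (K ^ q0 * D ^ q0)) + n ^ (q0 + 1) * L) +
            (Fintype.card A * ((q0 + 1) ^ 2 * (K ^ q0 * D ^ q0)) + n ^ (q0 + 1) * L) := by
              linarith
        _ = _ := by rw [← hn3]; ring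
    have g5 : C2 * (((E1 : ℝ) + E2) * e) ≤ (n * D) * ((q0 + 1) ^ 2 * K ^ q0 + 2 * L) := by
      have g6 : (C2 * (((E1 : ℝ) + E2) * e)) * (D : ℝ) ^ q0 ≤
          ((n * D) * ((q0 + 1) ^ 2 * K ^ q0 + 2 * L)) * (D : ℝ) ^ q0 := by
        calc (C2 * (((E1 : ℝ) + E2) * e)) * (D : ℝ) ^ q0 =
            C2 * (((E1 : ℝ) + E2) * (e * (D : ℝ) ^ q0)) := by ring
          _ ≤ C2 * (n * ((q0 + 1) ^ 2 * (K ^ q0 * D ^ q0)) + 2 * (n * n ^ q0) * L) := by gcongr
          _ = n * ((q0 + 1) ^ 2 * K ^ q0) * (C2 * D ^ q0) + 2 * n * L * (C2 * n ^ q0) := by ring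
          _ ≤ n * ((q0 + 1) ^ 2 * K ^ q0) * (D * D ^ q0) + 2 * n * L * (D : ℝ) ^ (q0 + 1) := by
              gcongr
          _ = _ := by rw [pow_succ]; ring
      exact le_of_mul_le_mul_right g6 (by positivity)
    have g7 : C2 * (((E1 : ℝ) + E2) * e) =
        8 * ((E1 : ℝ) + E2) * ((q0 + 1) ^ 2 * K ^ q0 + 2 * L) := by
      simp only [C2]; field_simp
    rw [g7] at g5
    have g8 : (0 : ℝ) < ((q0 + 1) ^ 2 * K ^ q0 + 2 * L) := by
      have : 0 < (K : ℝ) := by exact_mod_cast hK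
      positivity
    have g9 := le_of_mul_le_mul_right g5 g8
    rw [hn] at g9
    have g10 : (8 * ((E1 : ℝ) + E2)) ≤ D * ((Fintype.card A + Fintype.card B : ℕ) : ℝ) := by
      linarith
    exact_mod_cast g10
  have hdeg1 : ∀ a, deg1 r' a ≤ K * D := by
    intro a
    refine le_trans (Finset.card_le_card ?_) (hr.ua a)
    intro b hb
    rw [Finset.mem_filter] at hb ⊢
    exact ⟨hb.1, ((hr' _ _).1 hb.2).1⟩
  have hdeg2 : ∀ b, deg2 r' b ≤ K * D := by
    intro b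
    refine le_trans (Finset.card_le_card ?_) (hr.ub b)
    intro a ha
    rw [Finset.mem_filter] at ha ⊢
    exact ⟨ha.1, ((hr' _ _).1 ha.2).1⟩
  have hmain := hint A B r' D (4 * (E1 + E2)) hdeg1 hdeg2 (by nlinarith) (by nlinarith) hCD1 hCn1
  rw [hq] at hmain
  rcases hmain with h | h
  · left
    exact blow2_of_blow r r' (fun a b h => ((hr' a b).1 h).1) s k q0 s' t K D L hq0 ht hs' hr.lb
      hr.ub (fun a b h => ((hr' a b).1 h).2.1) hD3 le_rfl h
  · right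
    exact blow2_of_blow (fun b a => r a b) (fun b a => r' a b) (fun b a h => ((hr' a b).1 h).1)
      s k q0 s' t K D L hq0 ht hs' hr.la hr.ua (fun b a h => ((hr' a b).1 h).2.2) hD3 le_rfl h

/-- blowup inside a graph -/
def GB2 {W : Type} (G : SimpleGraph W) (s k q0 s' t : ℕ) : Prop :=
  ∃ (c : Fin t → W) (x : Fin s → Fin t → W) (y : Fin k → Fin t → W)
    (P : Fin s → Fin (q0 + 1) → W) (P' : Fin k → Fin q0 → W) (w : Fin s' → W),
    Function.Injective (Sum.elim (Sum.elim c (Sum.elim (fun z : Fin s × Fin (q0 + 1) => P z.1 z.2)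
      (fun z : Fin k × Fin q0 => P' z.1 z.2))) (Sum.elim (fun z : Fin s × Fin t => x z.1 z.2)
      (Sum.elim (fun z : Fin k × Fin t => y z.1 z.2) w))) ∧
    (∀ i j, G.Adj (c j) (x i j)) ∧ (∀ l j, G.Adj (c j) (y l j)) ∧ (∀ j l, G.Adj (c j) (w l)) ∧
    (∀ i j a, G.Adj (P i a) (x i j)) ∧ (∀ l j a, G.Adj (P' l a) (y l j))

theorem gb2_of_blow2 {n : ℕ} (G : SimpleGraph (Fin n)) (U W : Finset (Fin n))
    (hUW : Disjoint U W) (s k q0 s' t : ℕ)
    (h : Blow2 (fun (u : U) (w : W) => G.Adj u.1 w.1) s k q0 s' t) : GB2 G s k q0 s' t := by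
  obtain ⟨c, x, y, P, P', w, h1, h2, h3, h4, h5, h6, h7⟩ := h
  have hne : ∀ (u : U) (v : W), (u.1 : Fin n) ≠ v.1 := by
    intro u v huv
    exact (Finset.disjoint_left.mp hUW u.2) (by rw [huv]; exact v.2)
  refine ⟨fun j => (c j).1, fun i j => (x i j).1, fun l j => (y l j).1, fun i a => (P i a).1,
    fun l a => (P' l a).1, fun l => (w l).1, ?_, fun i j => h3 i j, fun l j => h4 l j,
    fun j l => h5 j l, fun i j a => h6 i j a, fun l j a => h7 l j a⟩
  refine Function.Injective.sumElim ?_ ?_ ?_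
  · have e1 : (Sum.elim (fun j => (c j).1) (Sum.elim
        (fun z : Fin s × Fin (q0 + 1) => (P z.1 z.2).1) (fun z : Fin k × Fin q0 => (P' z.1 z.2).1))) =
        (fun u : U => u.1) ∘ (Sum.elim c (Sum.elim (fun z : Fin s × Fin (q0 + 1) => P z.1 z.2)
      (fun z : Fin k × Fin q0 => P' z.1 z.2))) := by
      funext z
      rcases z with z | z | z <;> rfl
    rw [e1]
    exact Subtype.val_injective.comp h1
  · have e1 : (Sum.elim (fun z : Fin s × Fin t => (x z.1 z.2).1) (Sum.elim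
        (fun z : Fin k × Fin t => (y z.1 z.2).1) (fun l => (w l).1))) =
        (fun u : W => u.1) ∘ (Sum.elim (fun z : Fin s × Fin t => x z.1 z.2)
      (Sum.elim (fun z : Fin k × Fin t => y z.1 z.2) w)) := by
      funext z
      rcases z with z | z | z <;> rfl
    rw [e1]
    exact Subtype.val_injective.comp h2
  · rintro (z | z | z) (z' | z' | z') <;> exact hne _ _

theorem gb2_of_blow2' {n : ℕ} (G : SimpleGraph (Fin n)) (U W : Finset (Fin n))
    (hUW : Disjoint U W) (s k q0 s' t : ℕ)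
    (h : Blow2 (fun (w : W) (u : U) => G.Adj u.1 w.1) s k q0 s' t) : GB2 G s k q0 s' t := by
  apply gb2_of_blow2 G W U hUW.symm
  obtain ⟨c, x, y, P, P', w, h1, h2, h3, h4, h5, h6, h7⟩ := h
  exact ⟨c, x, y, P, P', w, h1, h2, fun i j => (h3 i j).symm, fun l j => (h4 l j).symm,
    fun j l => (h5 j l).symm, fun i j a => (h6 i j a).symm, fun l j a => (h7 l j a).symm⟩

/-- labels of the vertices of the tree -/
abbrev Lb (s k q0 s' : ℕ) : Type :=
  Unit ⊕ (Fin s ⊕ (Fin k ⊕ ((Fin s × Fin (q0 + 1)) ⊕ ((Fin k × Fin q0) ⊕ Fin s'))))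

/-- a labelling of a rooted tree -/
def Lab2 {V : Type} (T : SimpleGraph V) (R : Set V) (s k q0 s' : ℕ) : Prop :=
  ∃ (c : V) (x : Fin s → V) (y : Fin k → V) (P : Fin s → Fin (q0 + 1) → V)
    (P' : Fin k → Fin q0 → V) (w : Fin s' → V),
    Function.Bijective (Sum.elim (fun _ : Unit => c) (Sum.elim x (Sum.elim y
      (Sum.elim (fun z : Fin s × Fin (q0 + 1) => P z.1 z.2)
        (Sum.elim (fun z : Fin k × Fin q0 => P' z.1 z.2) w))))) ∧
    c ∉ R ∧ (∀ i, x i ∉ R) ∧ (∀ l, y l ∉ R) ∧ (∀ i a, P i a ∈ R) ∧ (∀ l a, P' l a ∈ R) ∧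
    (∀ l, w l ∈ R) ∧
    (∀ u v, T.Adj u v →
      (∃ i, (u = c ∧ v = x i) ∨ (v = c ∧ u = x i)) ∨
      (∃ l, (u = c ∧ v = y l) ∨ (v = c ∧ u = y l)) ∨
      (∃ i a, (u = x i ∧ v = P i a) ∨ (v = x i ∧ u = P i a)) ∨
      (∃ l a, (u = y l ∧ v = P' l a) ∨ (v = y l ∧ u = P' l a)) ∨
      (∃ l, (u = c ∧ v = w l) ∨ (v = c ∧ u = w l)))

theorem tr3' {V : Type} (T : SimpleGraph V) (R : Set V) (s k q0 s' : ℕ)
    (hLab : Lab2 T R s k q0 s') (t n : ℕ) (G : SimpleGraph (Fin n)) (hG : GB2 G s k q0 s' t) :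
    ∃ f : {p : V × ℕ // p.2 < t ∧ (p.1 ∈ R → p.2 = 0)} → Fin n,
      Function.Injective f ∧
      ∀ a b : {p : V × ℕ // p.2 < t ∧ (p.1 ∈ R → p.2 = 0)},
        (SimpleGraph.fromRel
          (fun a b : {p : V × ℕ // p.2 < t ∧ (p.1 ∈ R → p.2 = 0)} =>
            T.Adj a.1.1 b.1.1 ∧ (a.1.2 = b.1.2 ∨ a.1.1 ∈ R ∨ b.1.1 ∈ R))).Adj a b →
        G.Adj (f a) (f b) := by
  obtain ⟨c0, x0, y0, P0, P0', w0, hbij, hc, hx, hy, hP, hP', hw, hedge⟩ := hLab
  obtain ⟨c, x, y, P, P', w, hinj, acx, acy, acw, aPx, aPy⟩ := hG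
  let φ : Lb s k q0 s' ≃ V := Equiv.ofBijective _ hbij
  let Φ := Sum.elim (Sum.elim c (Sum.elim (fun z : Fin s × Fin (q0 + 1) => P z.1 z.2)
      (fun z : Fin k × Fin q0 => P' z.1 z.2))) (Sum.elim (fun z : Fin s × Fin t => x z.1 z.2)
      (Sum.elim (fun z : Fin k × Fin t => y z.1 z.2) w))
  let g : Lb s k q0 s' → Fin t → (Fin t ⊕ ((Fin s × Fin (q0 + 1)) ⊕ (Fin k × Fin q0))) ⊕
      ((Fin s × Fin t) ⊕ ((Fin k × Fin t) ⊕ Fin s')) := fun z j =>
    match z with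
    | Sum.inl _ => Sum.inl (Sum.inl j)
    | Sum.inr (Sum.inl i) => Sum.inr (Sum.inl (i, j))
    | Sum.inr (Sum.inr (Sum.inl l)) => Sum.inr (Sum.inr (Sum.inl (l, j)))
    | Sum.inr (Sum.inr (Sum.inr (Sum.inl z))) => Sum.inl (Sum.inr (Sum.inl z))
    | Sum.inr (Sum.inr (Sum.inr (Sum.inr (Sum.inl z)))) => Sum.inl (Sum.inr (Sum.inr z))
    | Sum.inr (Sum.inr (Sum.inr (Sum.inr (Sum.inr l)))) => Sum.inr (Sum.inr (Sum.inr l))
  have hg : ∀ z z' j j', g z j = g z' j' → z = z' ∧ (j = j' ∨ φ z ∈ R) := by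
    intro z z' j j' h
    rcases z with z | z | z | z | z | z <;> rcases z' with z' | z' | z' | z' | z' | z' <;>
      simp only [g, Sum.inl.injEq, Sum.inr.injEq, reduceCtorEq, Prod.mk.injEq] at h
    · exact ⟨rfl, Or.inl h⟩
    · exact ⟨by rw [h.1], Or.inl h.2⟩
    · exact ⟨by rw [h.1], Or.inl h.2⟩
    · exact ⟨by rw [h], Or.inr (hP _ _)⟩
    · exact ⟨by rw [h], Or.inr (hP' _ _)⟩
    · exact ⟨by rw [h], Or.inr (hw _)⟩
  let f : {p : V × ℕ // p.2 < t ∧ (p.1 ∈ R → p.2 = 0)} → Fin n := fun p =>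
    Φ (g (φ.symm p.1.1) ⟨p.1.2, p.2.1⟩)
  refine ⟨f, ?_, ?_⟩
  · intro p p' h
    have h1 := hinj h
    obtain ⟨h2, h3⟩ := hg _ _ _ _ h1
    have h4 : p.1.1 = p'.1.1 := φ.symm.injective h2
    apply Subtype.ext
    apply Prod.ext h4
    rcases h3 with h3 | h3
    · exact congrArg Fin.val h3
    · rw [Equiv.apply_symm_apply] at h3
      rw [p.2.2 h3, p'.2.2 (h4 ▸ h3)]
  · have ec : ∀ p : {p : V × ℕ // p.2 < t ∧ (p.1 ∈ R → p.2 = 0)}, p.1.1 = c0 →
        f p = c ⟨p.1.2, p.2.1⟩ := by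
      intro p hp
      have : φ.symm p.1.1 = Sum.inl () := by rw [Equiv.symm_apply_eq, hp]; rfl
      simp only [f, this]; rfl
    have ex : ∀ (p : {p : V × ℕ // p.2 < t ∧ (p.1 ∈ R → p.2 = 0)}) i, p.1.1 = x0 i →
        f p = x i ⟨p.1.2, p.2.1⟩ := by
      intro p i hp
      have : φ.symm p.1.1 = Sum.inr (Sum.inl i) := by rw [Equiv.symm_apply_eq, hp]; rfl
      simp only [f, this]; rfl
    have ey : ∀ (p : {p : V × ℕ // p.2 < t ∧ (p.1 ∈ R → p.2 = 0)}) l, p.1.1 = y0 l →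
        f p = y l ⟨p.1.2, p.2.1⟩ := by
      intro p i hp
      have : φ.symm p.1.1 = Sum.inr (Sum.inr (Sum.inl i)) := by
        rw [Equiv.symm_apply_eq, hp]; rfl
      simp only [f, this]; rfl
    have eP : ∀ (p : {p : V × ℕ // p.2 < t ∧ (p.1 ∈ R → p.2 = 0)}) i a, p.1.1 = P0 i a →
        f p = P i a := by
      intro p i a hp
      have : φ.symm p.1.1 = Sum.inr (Sum.inr (Sum.inr (Sum.inl (i, a)))) := by
        rw [Equiv.symm_apply_eq, hp]; rfl
      simp only [f, this]; rfl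
    have eP' : ∀ (p : {p : V × ℕ // p.2 < t ∧ (p.1 ∈ R → p.2 = 0)}) l a, p.1.1 = P0' l a →
        f p = P' l a := by
      intro p i a hp
      have : φ.symm p.1.1 = Sum.inr (Sum.inr (Sum.inr (Sum.inr (Sum.inl (i, a))))) := by
        rw [Equiv.symm_apply_eq, hp]; rfl
      simp only [f, this]; rfl
    have ew : ∀ (p : {p : V × ℕ // p.2 < t ∧ (p.1 ∈ R → p.2 = 0)}) l, p.1.1 = w0 l →
        f p = w l := by
      intro p i hp
      have : φ.symm p.1.1 = Sum.inr (Sum.inr (Sum.inr (Sum.inr (Sum.inr i)))) := by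
        rw [Equiv.symm_apply_eq, hp]; rfl
      simp only [f, this]; rfl
    have key : ∀ a b : {p : V × ℕ // p.2 < t ∧ (p.1 ∈ R → p.2 = 0)},
        T.Adj a.1.1 b.1.1 ∧ (a.1.2 = b.1.2 ∨ a.1.1 ∈ R ∨ b.1.1 ∈ R) → G.Adj (f a) (f b) := by
      rintro a b ⟨hT, h3⟩
      have hj : a.1.1 ∉ R → b.1.1 ∉ R → (⟨a.1.2, a.2.1⟩ : Fin t) = ⟨b.1.2, b.2.1⟩ := by
        intro ha hb
        rcases h3 with h | h | h
        · exact Fin.ext h
        · exact absurd h ha
        · exact absurd h hb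
      rcases hedge _ _ hT with ⟨i, ⟨h1, h2⟩ | ⟨h2, h1⟩⟩ | ⟨i, ⟨h1, h2⟩ | ⟨h2, h1⟩⟩ |
        ⟨i, u, ⟨h1, h2⟩ | ⟨h2, h1⟩⟩ | ⟨i, u, ⟨h1, h2⟩ | ⟨h2, h1⟩⟩ | ⟨l, ⟨h1, h2⟩ | ⟨h2, h1⟩⟩
      · rw [ec a h1, ex b i h2, hj (h1 ▸ hc) (h2 ▸ hx i)]
        exact acx _ _
      · rw [ec b h2, ex a i h1, hj (h1 ▸ hx i) (h2 ▸ hc)]
        exact (acx _ _).symm
      · rw [ec a h1, ey b i h2, hj (h1 ▸ hc) (h2 ▸ hy i)]
        exact acy _ _
      · rw [ec b h2, ey a i h1, hj (h1 ▸ hy i) (h2 ▸ hc)]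
        exact (acy _ _).symm
      · rw [ex a i h1, eP b i u h2]
        exact (aPx _ _ _).symm
      · rw [ex b i h2, eP a i u h1]
        exact aPx _ _ _
      · rw [ey a i h1, eP' b i u h2]
        exact (aPy _ _ _).symm
      · rw [ey b i h2, eP' a i u h1]
        exact aPy _ _ _
      · rw [ec a h1, ew b l h2]
        exact acw _ _
      · rw [ec b h2, ew a l h1]
        exact (acw _ _).symm
    intro a b hab
    rw [SimpleGraph.fromRel_adj] at hab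
    rcases hab.2 with h | h
    · exact key a b h
    · exact (key b a h).symm

end Pool.Agent.W590.BCI
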